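import Pool.Agent.L5helper12.CV.Defs
import Pool.Agent.L5helper15.PVAG

/-! CV7: the limit of the counting functions, and of the pair sums. -/

set_option autoImplicit false

open Filter Topology Set MeasureTheory Complex H370

namespace Pool.Agent.L5helper12.CV

open Pool.Agent.L5helper10.TV hiding GG
open Pool.Agent.L5helper12.PV
open Pool.Agent.L5helper12.TW (T4 T4_fav Mont)
open Pool.Agent.Y744 (mz mz_nonneg Zb mem_Zb QS Xf Xf_pos Q2 TK ct AG Kav fav Aa Aa_int Nr pr Nr_all)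

theorem Aa_of_Q1 (RH : RiemannHypothesis)
    (h : ∀ α β : ℝ, 0 < α → α < β → Tendsto (fun T => Nr T α β) atTop (𝓝 (pr α β))) (x : ℝ) :
    Tendsto (fun T => Aa T x) atTop (𝓝 (AG x)) := by
  have key : ∀ ℓ : ℝ, 0 < ℓ → ∀ a : ℝ, 1 ≤ a → ∀ ε : ℝ, 0 < ε → ∀ᶠ T in atTop,
      -(0 * Real.exp (-(1 * a))) - ε ≤ 1 * (Pool.Agent.Y744.Ww T a ℓ -
        2 * (Pool.Agent.Y744.gp (a + ℓ) - Pool.Agent.Y744.gp a)) := by
    intro ℓ hℓ a ha ε hε
    have h1 := h a (a + ℓ) (by linarith) (by linarith)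
    have e : pr a (a + ℓ) = Pool.Agent.Y744.gp (a + ℓ) - Pool.Agent.Y744.gp a := by
      unfold pr
      rw [Set.indicator_of_notMem (by
        rintro ⟨h2, h3⟩
        linarith)]
      ring
    rw [e] at h1
    filter_upwards [(Metric.tendsto_nhds.1 h1) (ε / 2) (by positivity)] with T hT
    rw [Real.dist_eq] at hT
    have h2 := abs_lt.1 hT
    rw [Pool.Agent.Y744.Ww_eq (show (0 : ℝ) < a by linarith)]
    linarith [h2.1]
  have hirr : Irrational (1 / Real.sqrt 2) := by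
    rw [one_div]
    exact irrational_sqrt_two.inv
  exact Pool.Agent.Y744.rigid_Aa RH (l := atTop) le_rfl (l1 := 1) (l2 := Real.sqrt 2) (s1 := 1) (s2 := 1)
    (C := 0) (c := 1) (a0 := 1) one_pos (Real.sqrt_pos.2 two_pos) hirr (Or.inl rfl) (Or.inl rfl) le_rfl one_pos
    one_pos (key 1 one_pos) (key (Real.sqrt 2) (Real.sqrt_pos.2 two_pos)) x

theorem Q2_of_Aa (hAa : ∀ x : ℝ, Tendsto (fun T => Aa T x) atTop (𝓝 (AG x))) {κ : ℝ} {K : ℝ → ℝ}
    (hK : TK κ K) (hκ : 0 < κ) (h : ℝ) (hh : 0 < h) (M : ℕ) (hM : κ + 1 ≤ M) :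
    Tendsto (fun T => Q2 (fav K h) T (Real.log T) / Xf T) atTop (𝓝 (mg (Kav K h) M)) := by
  obtain ⟨C0, T0, hT0, hb⟩ := Pool.Agent.L5helper12.TW.Aa_bd
  obtain ⟨D, hD⟩ := Pool.Agent.Y744.test_decay hK h
  have hC0 : 0 ≤ C0 := by
    have := (abs_nonneg _).trans (hb T0 le_rfl 0)
    simpa using this
  have hwm : Measurable fun y => ct K (y + h) - ct K (y - h) :=
    (hK.ct_cont.measurable.comp (by fun_prop)).sub (hK.ct_cont.measurable.comp (by fun_prop))
  have h1 : Tendsto (fun T => ∫ y, Aa T y * (ct K (y + h) - ct K (y - h))) atTop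
      (𝓝 (∫ y, AG y * (ct K (y + h) - ct K (y - h)))) := by
    refine tendsto_integral_filter_of_dominated_convergence (fun y => C0 * D * (1 + y ^ 2)⁻¹) ?_ ?_
      (integrable_inv_one_add_sq.const_mul _) ?_
    · filter_upwards [eventually_ge_atTop T0] with T hT
      exact ((Pool.Agent.Y744.Aa_mono (by linarith)).measurable.mul hwm).aestronglyMeasurable
    · filter_upwards [eventually_ge_atTop T0] with T hT
      refine Eventually.of_forall fun y => ?_
      rw [norm_mul, Real.norm_eq_abs, Real.norm_eq_abs]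
      have e1 := hb T hT y
      have e2 := hD y
      have hp : 0 < 1 + y ^ 2 := by positivity
      calc |Aa T y| * |ct K (y + h) - ct K (y - h)| ≤ (C0 * (1 + y ^ 2)) * (D / (1 + y ^ 2) ^ 2) :=
            mul_le_mul e1 e2 (abs_nonneg _) (mul_nonneg hC0 hp.le)
        _ = C0 * D * (1 + y ^ 2)⁻¹ := by field_simp
    · exact Eventually.of_forall fun y => (hAa y).mul_const _
  have hMκ : κ ≤ (M : ℝ) := by linarith
  have hM1 : (1 : ℝ) ≤ (M : ℝ) := by linarith
  rw [Pool.Agent.L5helper15.PVAG.AG_all hK hκ hh (M : ℝ) hMκ hM1] at h1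
  have h2 := h1.neg
  rw [neg_neg] at h2
  refine h2.congr fun T => ?_
  rw [Aa_int hK hh, neg_neg, div_eq_inv_mul]

end Pool.Agent.L5helper12.CV
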