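import Mathlib

namespace Pool.Agent.L5helper30.EndDevouring

universe u

/-- `R` is a ray of `G`: a one-way infinite path with starting vertex `R 0`. -/
structure IsRay {V : Type u} (G : SimpleGraph V) (R : ℕ → V) : Prop where
  adj : ∀ n, G.Adj (R n) (R (n + 1))
  inj : Function.Injective R

/-- For every finite set `S` of vertices, the rays `R` and `R'` have tails in the same
component of `G - S`. -/
def RayEquiv {V : Type u} (G : SimpleGraph V) (R R' : ℕ → V) : Prop :=
  ∀ S : Finset V, ∃ m : ℕ, ∀ i ≥ m, ∀ j ≥ m, ∃ (hi : R i ∉ S) (hj : R' j ∉ S),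
    (G.induce {v | v ∉ S}).Reachable ⟨R i, hi⟩ ⟨R' j, hj⟩

/-- `ω` is an end of `G`: an equivalence class of rays. -/
def IsEnd {V : Type u} (G : SimpleGraph V) (ω : Set (ℕ → V)) : Prop :=
  ∃ R, IsRay G R ∧ ω = {R' | IsRay G R' ∧ RayEquiv G R R'}

/-- The set `P` of rays devours `ω`: every ray in `ω` has a vertex in common with a ray in `P`. -/
def Devours {V : Type u} (P ω : Set (ℕ → V)) : Prop :=
  ∀ R ∈ ω, ∃ R' ∈ P, ∃ i j, R i = R' j

/-- Some countable set of rays of `G` devours `ω`. -/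
def IsCountableEnd {V : Type u} (G : SimpleGraph V) (ω : Set (ℕ → V)) : Prop :=
  ∃ P : Set (ℕ → V), P.Countable ∧ (∀ R ∈ P, IsRay G R) ∧ Devours P ω

section core

variable {V : Type u} {G : SimpleGraph V}

/-- Adjacency inside `X`. -/
def StepIn (G : SimpleGraph V) (X : Set V) (a b : V) : Prop := G.Adj a b ∧ a ∈ X ∧ b ∈ X

/-- Connection inside `X`. -/
abbrev Conn (G : SimpleGraph V) (X : Set V) : V → V → Prop := Relation.ReflTransGen (StepIn G X)

theorem conn_symm {X : Set V} {a b : V} (h : Conn G X a b) : Conn G X b a := by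
  induction h with
  | refl => exact .refl
  | tail _ h2 ih => exact Relation.ReflTransGen.head ⟨h2.1.symm, h2.2.2, h2.2.1⟩ ih

theorem conn_mono {X Y : Set V} (hXY : X ⊆ Y) {a b : V} (h : Conn G X a b) : Conn G Y a b := by
  induction h with
  | refl => exact .refl
  | tail _ h2 ih => exact ih.tail ⟨h2.1, hXY h2.2.1, hXY h2.2.2⟩

theorem conn_mem {X : Set V} {a b : V} (h : Conn G X a b) (ha : a ∈ X) : b ∈ X := by
  induction h with
  | refl => exact ha
  | tail _ h2 _ => exact h2.2.2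

/-- Prepend a vertex. -/
def consR (a : V) (R : ℕ → V) : ℕ → V
  | 0 => a
  | n + 1 => R n

@[simp] theorem consR_zero (a : V) (R : ℕ → V) : consR a R 0 = a := rfl
@[simp] theorem consR_succ (a : V) (R : ℕ → V) (n : ℕ) : consR a R (n + 1) = R n := rfl

theorem IsRay.drop {R : ℕ → V} (h : IsRay G R) (k : ℕ) : IsRay G (fun n => R (k + n)) :=
  ⟨fun n => h.adj (k + n), fun a b hab => by have := h.inj hab; omega⟩

theorem IsRay.cons {R : ℕ → V} (h : IsRay G R) {a : V} (ha : G.Adj a (R 0))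
    (hn : ∀ n, a ≠ R n) : IsRay G (consR a R) := by
  refine ⟨?_, ?_⟩
  · intro n
    cases n with
    | zero => exact ha
    | succ n => exact h.adj n
  · intro m n hmn
    cases m with
    | zero =>
      cases n with
      | zero => rfl
      | succ n => exact absurd hmn (hn n)
    | succ m =>
      cases n with
      | zero => exact absurd hmn.symm (hn m)
      | succ n => exact congrArg _ (h.inj hmn)

theorem ray_of_conn {X : Set V} {R0 : ℕ → V} (h0 : IsRay G R0) (hX : ∀ n, R0 n ∈ X) {i : ℕ}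
    {y : V} (hc : Conn G X y (R0 i)) :
    ∃ R, IsRay G R ∧ R 0 = y ∧ (∀ n, R n ∈ X) ∧ ∃ k m, ∀ n, R (k + n) = R0 (m + n) := by
  induction hc using Relation.ReflTransGen.head_induction_on with
  | refl => exact ⟨fun n => R0 (i + n), h0.drop i, by simp, fun n => hX _, 0, i, by simp⟩
  | head hab _ ih =>
    obtain ⟨R, hR, hR0, hRX, k, m, hkm⟩ := ih
    rename_i a c _
    by_cases ha : ∃ n, a = R n
    · obtain ⟨n, hn⟩ := ha
      refine ⟨fun j => R (n + j), hR.drop n, by simp [hn], fun j => hRX _, k, m + n, fun j => ?_⟩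
      change R (n + (k + j)) = _
      rw [show n + (k + j) = k + (n + j) by ring, hkm]
      congr 1
      ring
    · push Not at ha
      refine ⟨consR a R, hR.cons (by rw [hR0]; exact hab.1) ha, rfl, ?_, k + 1, m, fun j => ?_⟩
      · intro n
        cases n with
        | zero => exact hab.2.1
        | succ n => exact hRX n
      · rw [show k + 1 + j = (k + j) + 1 by ring, consR_succ, hkm]

theorem ray_of_conn' {Y : Set V} {R0 : ℕ → V} (h0 : IsRay G R0) (hY : ∀ n, R0 n ∉ Y) {y0 y : V}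
    (hy0 : y0 ∈ Y) (hadj : G.Adj y0 (R0 0)) (hc : Conn G Y y y0) :
    ∃ R k, IsRay G R ∧ R 0 = y ∧ (∀ n < k, R n ∈ Y) ∧ ∀ n, R (k + n) = R0 n := by
  suffices h : ∃ R k, 0 < k ∧ IsRay G R ∧ R 0 = y ∧ (∀ n < k, R n ∈ Y) ∧ ∀ n, R (k + n) = R0 n by
    obtain ⟨R, k, _, h⟩ := h
    exact ⟨R, k, h⟩
  induction hc using Relation.ReflTransGen.head_induction_on with
  | refl =>
    refine ⟨consR y0 R0, 1, one_pos, h0.cons hadj ?_, rfl, ?_, ?_⟩
    · intro n hn
      exact hY n (hn ▸ hy0)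
    · intro n hn
      have : n = 0 := by omega
      subst this
      exact hy0
    · intro n
      rw [add_comm, consR_succ]
  | head hab _ ih =>
    obtain ⟨R, k, hk, hR, hR0, hRY, hkn⟩ := ih
    rename_i a c _
    by_cases ha : ∃ n, a = R n
    · obtain ⟨n, hn⟩ := ha
      have hnk : n < k := by
        by_contra hc
        push Not at hc
        obtain ⟨m, rfl⟩ := Nat.exists_eq_add_of_le hc
        rw [hkn] at hn
        exact hY m (hn ▸ hab.2.1)
      refine ⟨fun j => R (n + j), k - n, by omega, hR.drop n, by simp [hn], ?_, fun j => ?_⟩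
      · intro j hj
        exact hRY _ (by omega)
      · change R (n + (k - n + j)) = _
        rw [show n + (k - n + j) = k + j by omega, hkn]
    · push Not at ha
      refine ⟨consR a R, k + 1, by omega, hR.cons (by rw [hR0]; exact hab.1) ha, rfl, ?_,
        fun j => ?_⟩
      · intro n hn
        cases n with
        | zero => exact hab.2.1
        | succ n => exact hRY n (by omega)
      · rw [show k + 1 + j = (k + j) + 1 by ring, consR_succ, hkn]

theorem conn_ray {R : ℕ → V} (h : IsRay G R) {X : Set V} {i j : ℕ} (hij : i ≤ j)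
    (hX : ∀ n, i ≤ n → n ≤ j → R n ∈ X) : Conn G X (R i) (R j) := by
  induction j, hij using Nat.le_induction with
  | base => exact .refl
  | succ j hij ih =>
    exact (ih fun n hn hn' => hX n hn (by omega)).tail
      ⟨h.adj j, hX j hij (by omega), hX (j + 1) (by omega) le_rfl⟩

/-! ### Ends, abstractly -/

/-- The properties of an end used below. -/
structure EndLike (G : SimpleGraph V) (Om : Set (ℕ → V)) : Prop where
  ray : ∀ R ∈ Om, IsRay G R
  tail : ∀ R ∈ Om, ∀ R', IsRay G R' → (∃ k m, ∀ n, R' (k + n) = R (m + n)) → R' ∈ Om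
  conn : ∀ R ∈ Om, ∀ R' ∈ Om, ∀ X : Finset V, ∀ N, ∃ i ≥ N, ∃ j ≥ N,
    R i ∉ X ∧ R' j ∉ X ∧ Conn G {v | v ∉ X} (R i) (R' j)
  close : ∀ R ∈ Om, ∀ R', IsRay G R' →
    (∀ X : Finset V, ∃ i j, R i ∉ X ∧ R' j ∉ X ∧ Conn G {v | v ∉ X} (R i) (R' j)) → R' ∈ Om

/-- A route: a ray of the end starting in `A`, whose other vertices are in `D`. -/
def Route (Om : Set (ℕ → V)) (A D : Set V) (R : ℕ → V) : Prop :=
  R ∈ Om ∧ R 0 ∈ A ∧ ∀ n, R (n + 1) ∈ D

/-- The vertices of `D` which lie on routes. -/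
def Tset (Om : Set (ℕ → V)) (A D : Set V) : Set V :=
  {v | ∃ R, Route Om A D R ∧ ∃ n, v = R (n + 1)}

/-- The component of `u` in `D` minus the vertices on routes. -/
def Cset (G : SimpleGraph V) (Om : Set (ℕ → V)) (A D : Set V) (u : V) : Set V :=
  {v | Conn G (D \ Tset Om A D) u v}

variable {Om : Set (ℕ → V)} {A D : Set V} {u : V}

theorem Tset_sub : Tset Om A D ⊆ D := by
  rintro v ⟨R, hR, n, rfl⟩
  exact hR.2.2 n

theorem Cset_sub (hu : u ∈ D \ Tset Om A D) : Cset G Om A D u ⊆ D \ Tset Om A D :=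
  fun _ hv => conn_mem hv hu

theorem Cset_conn {v w : V} (hv : v ∈ Cset G Om A D u)
    (hw : w ∈ Cset G Om A D u) : Conn G (Cset G Om A D u) v w := by
  have key : ∀ {w}, Conn G (D \ Tset Om A D) u w → Conn G (Cset G Om A D u) u w := by
    intro w hw
    induction hw with
    | refl => exact .refl
    | tail h1 h2 ih => exact ih.tail ⟨h2.1, h1, h1.tail h2⟩
  exact (conn_symm (key hv)).trans (key hw)

/-- Prepending a vertex of `A` to a ray of the end in `D`. -/
theorem route_cons (hE : EndLike G Om) (hAD : Disjoint A D) {R : ℕ → V} (hR : R ∈ Om)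
    (hRD : ∀ n, R n ∈ D) {a : V} (ha : a ∈ A) (hadj : G.Adj a (R 0)) :
    Route Om A D (consR a R) := by
  refine ⟨hE.tail R hR _ ((hE.ray R hR).cons hadj ?_) ⟨1, 0, fun n => ?_⟩, ha, hRD⟩
  · intro n hn
    exact Set.disjoint_left.1 hAD ha (hn ▸ hRD n)
  · rw [add_comm, consR_succ, zero_add]

theorem lemA (hE : EndLike G Om) (hAD : Disjoint A D) (hu : u ∈ D \ Tset Om A D) {t c a c' : V}
    (ht : t ∈ Tset Om A D) (hc : c ∈ Cset G Om A D u) (hct : G.Adj c t) (ha : a ∈ A)
    (hc' : c' ∈ Cset G Om A D u) (hac : G.Adj a c') : False := by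
  obtain ⟨R, hR, n, rfl⟩ := ht
  have hCD : Cset G Om A D u ⊆ D := fun v hv => (Cset_sub hu hv).1
  have h1 : Conn G D c' (R (n + 1)) :=
    (conn_mono hCD (Cset_conn hc' hc)).tail ⟨hct, hCD hc, hR.2.2 n⟩
  have hray := hE.ray R hR.1
  obtain ⟨R', hR', h0, hD, k, m, hkm⟩ := ray_of_conn (R0 := fun j => R (1 + j)) (hray.drop 1)
    (fun j => by rw [add_comm]; exact hR.2.2 j) (i := n) (y := c')
    (by rw [add_comm] at h1; exact h1)
  have hOm : R' ∈ Om := hE.tail R hR.1 R' hR' ⟨k, 1 + m, fun j => by rw [hkm]; ring_nf⟩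
  have hroute := route_cons hE hAD hOm hD ha (by rw [h0]; exact hac)
  exact (Cset_sub hu hc').2 ⟨_, hroute, 0, by simp [h0]⟩

theorem lemB'' (hE : EndLike G Om) (hAD : Disjoint A D) (hu : u ∈ D \ Tset Om A D) {Y : Set V}
    (hYD : Y ⊆ D) (hYC : ∀ v ∈ Y, v ∉ Cset G Om A D u) {ya a t1 c1 c2 : V} (hya : ya ∈ Y)
    (ha : a ∈ A) (hadj : G.Adj a ya) (hconn : Conn G Y ya t1) (ht1 : G.Adj t1 c1)
    (hc1 : c1 ∈ Cset G Om A D u) {R : ℕ → V} (hR : R ∈ Om) (hRD : ∀ n, R n ∈ D)
    (hRY : ∀ n, R n ∉ Y) (hRC : ∀ n, R n ∉ Cset G Om A D u) (hadj2 : G.Adj c2 (R 0))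
    (hc2 : c2 ∈ Cset G Om A D u) : False := by
  obtain ⟨R1, k, hR1, h10, h1C, h1k⟩ := ray_of_conn' (Y := Cset G Om A D u) (hE.ray R hR) hRC
    hc2 hadj2 (Cset_conn hc1 hc2)
  have hR1' : ∀ n, R1 n ∈ Cset G Om A D u ∨ ∃ m, R1 n = R m := by
    intro n
    rcases lt_or_ge n k with h | h
    · exact Or.inl (h1C n h)
    · obtain ⟨m, rfl⟩ := Nat.exists_eq_add_of_le h
      exact Or.inr ⟨m, h1k m⟩
  have hR1Y : ∀ n, R1 n ∉ Y := by
    intro n hn
    rcases hR1' n with h | ⟨m, hm⟩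
    · exact hYC _ hn h
    · exact hRY m (hm ▸ hn)
  have ht1Y : t1 ∈ Y := conn_mem hconn hya
  obtain ⟨R2, k2, hR2, h20, h2Y, h2k⟩ := ray_of_conn' (Y := Y) hR1 hR1Y ht1Y
    (by rw [h10]; exact ht1) hconn
  have hOm : R2 ∈ Om := hE.tail R hR R2 hR2 ⟨k2 + k, 0, fun n => by
    rw [add_assoc, h2k, h1k, zero_add]⟩
  have hD2 : ∀ n, R2 n ∈ D := by
    intro n
    rcases lt_or_ge n k2 with h | h
    · exact hYD (h2Y n h)
    · obtain ⟨m, rfl⟩ := Nat.exists_eq_add_of_le h
      rw [h2k]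
      rcases hR1' m with h | ⟨m', hm⟩
      · exact (Cset_sub hu h).1
      · rw [hm]; exact hRD m'
  have hroute := route_cons hE hAD hOm hD2 ha (by rw [h20]; exact hadj)
  refine (Cset_sub hu hc1).2 ⟨_, hroute, k2, ?_⟩
  have := h2k 0
  simp at this
  simp [this, h10]

theorem route_T {R : ℕ → V} (hR : Route Om A D R) (n : ℕ) : R (n + 1) ∈ Tset Om A D :=
  ⟨R, hR, n, rfl⟩

theorem lemB0 (hE : EndLike G Om) (hAD : Disjoint A D) (hu : u ∈ D \ Tset Om A D) {R : ℕ → V}
    (hR : Route Om A D R) {n1 n2 : ℕ} (hn : n1 < n2) {c1 c2 : V} (hc1 : c1 ∈ Cset G Om A D u)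
    (hc2 : c2 ∈ Cset G Om A D u) (h1 : G.Adj (R (n1 + 1)) c1) (h2 : G.Adj (R (n2 + 1)) c2) :
    False := by
  have hray := hE.ray R hR.1
  have hTC : ∀ v ∈ Tset Om A D, v ∉ Cset G Om A D u := fun v hv hv' => (Cset_sub hu hv').2 hv
  refine lemB'' hE hAD hu (Y := {v | ∃ i ≤ n1, v = R (i + 1)}) (ya := R 1) (a := R 0)
    (t1 := R (n1 + 1)) (c1 := c1) (c2 := c2) (R := fun j => R (n2 + 1 + j)) ?_ ?_ ?_ ?_ ?_ ?_ ?_
    ?_ ?_ ?_ ?_ ?_ ?_ ?_
  · rintro v ⟨i, _, rfl⟩
    exact hR.2.2 i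
  · rintro v ⟨i, _, rfl⟩
    exact hTC _ (route_T hR i)
  · exact ⟨0, by omega, rfl⟩
  · exact hR.2.1
  · exact hray.adj 0
  · refine conn_ray hray (by omega) fun n hn1 hn2 => ⟨n - 1, by omega, ?_⟩
    rw [Nat.sub_add_cancel hn1]
  · exact h1
  · exact hc1
  · exact hE.tail R hR.1 _ (hray.drop _) ⟨0, n2 + 1, fun n => by simp⟩
  · intro n
    rw [show n2 + 1 + n = (n2 + n) + 1 by ring]
    exact hR.2.2 _
  · rintro n ⟨i, hi, hi'⟩
    have := hray.inj hi'
    omega
  · intro n
    rw [show n2 + 1 + n = (n2 + n) + 1 by ring]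
    exact hTC _ (route_T hR _)
  · exact h2.symm
  · exact hc2

theorem lemB0' (hE : EndLike G Om) (hAD : Disjoint A D) (hu : u ∈ D \ Tset Om A D) {R : ℕ → V}
    (hR : Route Om A D R) {n1 n2 : ℕ} (hn : n1 ≠ n2) {c1 c2 : V} (hc1 : c1 ∈ Cset G Om A D u)
    (hc2 : c2 ∈ Cset G Om A D u) (h1 : G.Adj (R (n1 + 1)) c1) (h2 : G.Adj (R (n2 + 1)) c2) :
    False := by
  rcases lt_or_gt_of_ne hn with h | h
  · exact lemB0 hE hAD hu hR h hc1 hc2 h1 h2
  · exact lemB0 hE hAD hu hR h hc2 hc1 h2 h1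

theorem lemB (hE : EndLike G Om) (hAD : Disjoint A D) (hu : u ∈ D \ Tset Om A D)
    {t1 t2 c1 c2 : V} (ht1 : t1 ∈ Tset Om A D) (ht2 : t2 ∈ Tset Om A D) (hne : t1 ≠ t2)
    (hc1 : c1 ∈ Cset G Om A D u) (hc2 : c2 ∈ Cset G Om A D u) (h1 : G.Adj t1 c1)
    (h2 : G.Adj t2 c2) : False := by
  classical
  obtain ⟨R1, hR1, n1, rfl⟩ := ht1
  obtain ⟨R2, hR2, n2, rfl⟩ := ht2
  have hray1 := hE.ray R1 hR1.1
  have hray2 := hE.ray R2 hR2.1
  have hTC : ∀ v ∈ Tset Om A D, v ∉ Cset G Om A D u := fun v hv hv' => (Cset_sub hu hv').2 hv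
  have hTD : Tset Om A D ⊆ D := Tset_sub
  by_cases hex : ∃ k, ∃ p, R2 (n2 + 1 + k) = R1 (p + 1)
  · obtain ⟨p, hp⟩ := Nat.find_spec hex
    have hmin : ∀ k' < Nat.find hex, ∀ q, R2 (n2 + 1 + k') ≠ R1 (q + 1) := by
      intro k' hk' q hq
      exact Nat.find_min hex hk' ⟨q, hq⟩
    generalize hk : Nat.find hex = k at hp hmin
    clear hk
    rcases Nat.eq_zero_or_pos k with hk0 | hk0
    · subst hk0
      simp only [add_zero] at hp
      have hpn : n1 ≠ p := by
        rintro rfl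
        exact hne hp.symm
      exact lemB0' hE hAD hu hR1 hpn hc1 hc2 h1 (hp ▸ h2)
    · rcases lt_trichotomy p n1 with hlt | heq | hgt
      · -- reach t2 by R1 up to p and R2 backwards
        refine lemB'' hE hAD hu
          (Y := {v | (∃ i ≤ p, v = R1 (i + 1)) ∨ ∃ i < k, v = R2 (n2 + 1 + i)})
          (ya := R1 1) (a := R1 0) (t1 := R2 (n2 + 1)) (c1 := c2) (c2 := c1)
          (R := fun j => R1 (n1 + 1 + j)) ?_ ?_ ?_ ?_ ?_ ?_ ?_ ?_ ?_ ?_ ?_ ?_ ?_ ?_
        · rintro v (⟨i, _, rfl⟩ | ⟨i, _, rfl⟩)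
          · exact hR1.2.2 i
          · rw [show n2 + 1 + i = (n2 + i) + 1 by ring]
            exact hR2.2.2 _
        · rintro v (⟨i, _, rfl⟩ | ⟨i, _, rfl⟩)
          · exact hTC _ (route_T hR1 i)
          · rw [show n2 + 1 + i = (n2 + i) + 1 by ring]
            exact hTC _ (route_T hR2 _)
        · exact Or.inl ⟨0, by omega, rfl⟩
        · exact hR1.2.1
        · exact hray1.adj 0
        · have hA : Conn G {v | (∃ i ≤ p, v = R1 (i + 1)) ∨ ∃ i < k, v = R2 (n2 + 1 + i)}
              (R1 1) (R1 (p + 1)) := by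
            refine conn_ray hray1 (by omega) fun n hn1 hn2 => Or.inl ⟨n - 1, by omega, ?_⟩
            rw [Nat.sub_add_cancel hn1]
          have hB : Conn G {v | (∃ i ≤ p, v = R1 (i + 1)) ∨ ∃ i < k, v = R2 (n2 + 1 + i)}
              (R2 (n2 + 1)) (R2 (n2 + 1 + (k - 1))) := by
            refine conn_ray hray2 (by omega) fun n hn1 hn2 => Or.inr ⟨n - (n2 + 1), by omega, ?_⟩
            rw [Nat.add_sub_cancel' hn1]
          refine (hA.tail ⟨?_, Or.inl ⟨p, le_rfl, rfl⟩, Or.inr ⟨k - 1, by omega, rfl⟩⟩).trans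
            (conn_symm hB)
          have := hray2.adj (n2 + 1 + (k - 1))
          rw [show n2 + 1 + (k - 1) + 1 = n2 + 1 + k by omega, hp] at this
          exact this.symm
        · exact h2
        · exact hc2
        · exact hE.tail R1 hR1.1 _ (hray1.drop _) ⟨0, n1 + 1, fun n => by simp⟩
        · intro n
          rw [show n1 + 1 + n = (n1 + n) + 1 by ring]
          exact hR1.2.2 _
        · rintro n (⟨i, hi, hi'⟩ | ⟨i, hi, hi'⟩)
          · have := hray1.inj hi'
            omega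
          · exact hmin i hi (n1 + n) (by rw [← hi']; congr 1; ring)
        · intro n
          rw [show n1 + 1 + n = (n1 + n) + 1 by ring]
          exact hTC _ (route_T hR1 _)
        · exact h1.symm
        · exact hc1
      · subst heq
        have hne' : k ≠ 0 := by omega
        refine lemB0 hE hAD hu hR2 (n1 := n2) (n2 := n2 + k) (by omega) hc2 hc1 h2 ?_
        rw [show n2 + k + 1 = n2 + 1 + k by ring, hp]
        exact h1
      · -- the ray from t2 by R2 and then R1
        obtain ⟨R', k', hR', h0', hY', hk'⟩ := ray_of_conn'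
          (Y := {v | ∃ i < k, v = R2 (n2 + 1 + i)}) (R0 := fun j => R1 (p + 1 + j))
          (hray1.drop _) (y0 := R2 (n2 + 1 + (k - 1))) (y := R2 (n2 + 1))
          (by
            rintro n ⟨i, hi, hi'⟩
            exact hmin i hi (p + n) (by rw [← hi']; congr 1; ring))
          ⟨k - 1, by omega, rfl⟩
          (by
            have := hray2.adj (n2 + 1 + (k - 1))
            rw [show n2 + 1 + (k - 1) + 1 = n2 + 1 + k by omega, hp] at this
            simpa using this)
          (by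
            refine conn_ray hray2 (by omega) fun n hn1 hn2 => ⟨n - (n2 + 1), by omega, ?_⟩
            rw [Nat.add_sub_cancel' hn1])
        have hcase : ∀ n, (∃ i < k, R' n = R2 (n2 + 1 + i)) ∨ ∃ m, R' n = R1 (p + 1 + m) := by
          intro n
          rcases lt_or_ge n k' with h | h
          · exact Or.inl (hY' n h)
          · obtain ⟨m, rfl⟩ := Nat.exists_eq_add_of_le h
            exact Or.inr ⟨m, hk' m⟩
        have hRT : ∀ n, R' n ∈ Tset Om A D := by
          intro n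
          rcases hcase n with ⟨i, _, hi⟩ | ⟨m, hm⟩
          · rw [hi, show n2 + 1 + i = (n2 + i) + 1 by ring]
            exact route_T hR2 _
          · rw [hm, show p + 1 + m = (p + m) + 1 by ring]
            exact route_T hR1 _
        refine lemB'' hE hAD hu (Y := {v | ∃ i ≤ n1, v = R1 (i + 1)}) (ya := R1 1) (a := R1 0)
          (t1 := R1 (n1 + 1)) (c1 := c1) (c2 := c2) (R := R') ?_ ?_ ?_ ?_ ?_ ?_ ?_
          ?_ ?_ ?_ ?_ ?_ ?_ ?_
        · rintro v ⟨i, _, rfl⟩
          exact hR1.2.2 i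
        · rintro v ⟨i, _, rfl⟩
          exact hTC _ (route_T hR1 i)
        · exact ⟨0, by omega, rfl⟩
        · exact hR1.2.1
        · exact hray1.adj 0
        · refine conn_ray hray1 (by omega) fun n hn1 hn2 => ⟨n - 1, by omega, ?_⟩
          rw [Nat.sub_add_cancel hn1]
        · exact h1
        · exact hc1
        · exact hE.tail R1 hR1.1 _ hR' ⟨k', p + 1, hk'⟩
        · exact fun n => hTD (hRT n)
        · rintro n ⟨i, hi, hi'⟩
          rcases hcase n with ⟨j, hj, hj'⟩ | ⟨m, hm⟩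
          · exact hmin j hj i (by rw [← hj', hi'])
          · rw [hm] at hi'
            have := hray1.inj hi'
            omega
        · exact fun n => hTC _ (hRT n)
        · rw [h0']
          exact h2.symm
        · exact hc2
  · push Not at hex
    refine lemB'' hE hAD hu (Y := {v | ∃ i ≤ n1, v = R1 (i + 1)}) (ya := R1 1) (a := R1 0)
      (t1 := R1 (n1 + 1)) (c1 := c1) (c2 := c2) (R := fun j => R2 (n2 + 1 + j)) ?_ ?_ ?_ ?_ ?_
      ?_ ?_ ?_ ?_ ?_ ?_ ?_ ?_ ?_
    · rintro v ⟨i, _, rfl⟩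
      exact hR1.2.2 i
    · rintro v ⟨i, _, rfl⟩
      exact hTC _ (route_T hR1 i)
    · exact ⟨0, by omega, rfl⟩
    · exact hR1.2.1
    · exact hray1.adj 0
    · refine conn_ray hray1 (by omega) fun n hn1 hn2 => ⟨n - 1, by omega, ?_⟩
      rw [Nat.sub_add_cancel hn1]
    · exact h1
    · exact hc1
    · exact hE.tail R2 hR2.1 _ (hray2.drop _) ⟨0, n2 + 1, fun n => by simp⟩
    · intro n
      rw [show n2 + 1 + n = (n2 + n) + 1 by ring]
      exact hR2.2.2 _
    · rintro n ⟨i, hi, hi'⟩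
      exact hex n i hi'
    · intro n
      rw [show n2 + 1 + n = (n2 + n) + 1 by ring]
      exact hTC _ (route_T hR2 _)
    · exact h2.symm
    · exact hc2

/-- The separation lemma. -/
theorem separation (hE : EndLike G Om) (hAD : Disjoint A D) (F : Finset V)
    (hF : ∀ v, v ∈ A ∨ v ∈ D ∨ v ∈ F) {K0 Q : ℕ → V} (hK0 : K0 ∈ Om)
    (hK0D : ∀ n, K0 n ∉ D) (hQ : Q ∈ Om) (hQ0 : Q 0 = u) (hQD : ∀ n, Q n ∈ D) :
    ∃ z ∈ Tset Om A D, ∀ W ∈ Om, W 0 = u → ∃ n, W n = z ∨ W n ∈ F := by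
  classical
  by_cases huT : u ∈ Tset Om A D
  · exact ⟨u, huT, fun W _ hW => ⟨0, Or.inl hW⟩⟩
  have hu : u ∈ D \ Tset Om A D := ⟨hQ0 ▸ hQD 0, huT⟩
  -- the ray `Q` meets `T`
  have step1 : ∃ b, Q b ∈ Tset Om A D := by
    obtain ⟨i, _, j, _, hiF, hjF, hconn⟩ := hE.conn Q hQ K0 hK0 F 0
    have key : ∀ y, Conn G {v | v ∉ F} (Q i) y →
        (∃ b, Q b ∈ Tset Om A D) ∨ (y ∈ D ∧ Conn G D (Q i) y) := by
      intro y hy
      induction hy with
      | refl => exact Or.inr ⟨hQD i, .refl⟩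
      | tail _ hbc ih =>
        rename_i y y' _
        rcases ih with ih | ⟨hyD, hyc⟩
        · exact Or.inl ih
        rcases hF y' with hA | hD | hFF
        · left
          obtain ⟨R, hR, hR0, hRD, k, m, hkm⟩ := ray_of_conn (hE.ray Q hQ) hQD (conn_symm hyc)
          have hOm : R ∈ Om := hE.tail Q hQ R hR ⟨k, m, hkm⟩
          have hroute := route_cons hE hAD hOm hRD hA (by rw [hR0]; exact hbc.1.symm)
          refine ⟨m, ⟨_, hroute, k, ?_⟩⟩
          have := hkm 0
          simp at this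
          simp [this]
        · exact Or.inr ⟨hD, hyc.tail ⟨hbc.1, hyD, hD⟩⟩
        · exact absurd hFF hbc.2.2
    rcases key _ hconn with h | h
    · exact h
    · exact absurd h.1 (hK0D j)
  obtain ⟨b, hb, hbmin⟩ : ∃ b, Q b ∈ Tset Om A D ∧ ∀ b' < b, Q b' ∉ Tset Om A D :=
    ⟨Nat.find step1, Nat.find_spec step1, fun b' hb' => Nat.find_min step1 hb'⟩
  have hb0 : b ≠ 0 := by
    rintro rfl
    exact huT (hQ0 ▸ hb)
  have hrayQ := hE.ray Q hQ
  have hbC : Q (b - 1) ∈ Cset G Om A D u := by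
    have := conn_ray hrayQ (Nat.zero_le (b - 1)) (X := D \ Tset Om A D)
      fun n _ hn => ⟨hQD n, hbmin n (by omega)⟩
    rw [hQ0] at this
    exact this
  have hadjb : G.Adj (Q (b - 1)) (Q b) := by
    have := hrayQ.adj (b - 1)
    rwa [Nat.sub_add_cancel (by omega)] at this
  -- the component of `u` has only `Q b` as a neighbour outside `F`
  have hout : ∀ c ∈ Cset G Om A D u, ∀ v, G.Adj c v → v ∉ F → v ≠ Q b →
      v ∈ Cset G Om A D u := by
    intro c hc v hcv hvF hvz
    rcases hF v with hA | hD | hFF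
    · exact (lemA hE hAD hu hb hbC hadjb hA hc hcv.symm).elim
    · by_cases hvT : v ∈ Tset Om A D
      · exact (lemB hE hAD hu hvT hb hvz hc hbC hcv.symm hadjb.symm).elim
      · exact Relation.ReflTransGen.tail hc ⟨hcv, Cset_sub hu hc, hD, hvT⟩
    · exact absurd hFF hvF
  refine ⟨Q b, hb, fun W hW hW0 => ?_⟩
  by_contra hno
  push Not at hno
  have hrayW := hE.ray W hW
  have hWC : ∀ n, W n ∈ Cset G Om A D u := by
    intro n
    induction n with
    | zero =>
      rw [hW0]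
      exact Relation.ReflTransGen.refl
    | succ n ih => exact hout _ ih _ (hrayW.adj n) (hno _).2 (hno _).1
  obtain ⟨i, _, j, _, hiF, hjF, hconn⟩ := hE.conn W hW K0 hK0 (insert (Q b) F) 0
  have : ∀ y, Conn G {v | v ∉ insert (Q b) F} (W i) y → y ∈ Cset G Om A D u := by
    intro y hy
    induction hy with
    | refl => exact hWC i
    | tail _ hbc ih =>
      have h2 := hbc.2.2
      simp only [Finset.mem_insert, not_or, Set.mem_ofPred_eq] at h2
      exact hout _ ih _ hbc.1 h2.2 h2.1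
  exact hK0D j (Cset_sub hu (this _ hconn)).1

/-! ### Systems of disjoint rays -/

/-- A system of disjoint rays of the end with prescribed starting vertices. -/
structure Sys (Om : Set (ℕ → V)) {S : Type u} (s0 : S → V) (K : S → ℕ → V) : Prop where
  mem : ∀ s, K s ∈ Om
  start : ∀ s, K s 0 = s0 s
  disj : ∀ s t i j, K s i = K t j → s = t

/-- `K'` agrees with `K` on the first `ℓ s + 1` vertices of the ray of index `s`. -/
def Ext {S : Type u} (K : S → ℕ → V) (ℓ : S → ℕ) (K' : S → ℕ → V) : Prop :=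
  ∀ s i, i ≤ ℓ s → K' s i = K s i

theorem Ext.trans {S : Type u} {K K' K'' : S → ℕ → V} {ℓ ℓ' : S → ℕ} (h : Ext K ℓ K')
    (h' : Ext K' ℓ' K'') (hl : ℓ ≤ ℓ') : Ext K ℓ K'' :=
  fun s i hi => (h' s i (hi.trans (hl s))).trans (h s i hi)

/-- Every system extending `(K, ℓ)` meets every ray of the end starting at `u`. -/
def Safe (Om : Set (ℕ → V)) {S : Type u} (s0 : S → V) (K : S → ℕ → V) (ℓ : S → ℕ) (u : V) :
    Prop :=
  ∀ K', Sys Om s0 K' → Ext K ℓ K' → ∀ W ∈ Om, W 0 = u → ∃ s i j, W i = K' s j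

theorem key_lemma (hE : EndLike G Om) {S : Type u} [Nonempty S] {s0 : S → V} {K : S → ℕ → V}
    (hK : Sys Om s0 K) {ℓ : S → ℕ} (hℓ : {s | ℓ s ≠ 0}.Finite) (u : V) :
    ∃ K' ℓ', Sys Om s0 K' ∧ {s | ℓ' s ≠ 0}.Finite ∧ Ext K ℓ K' ∧ (∀ t, ℓ t ≤ ℓ' t) ∧
      Safe Om s0 K' ℓ' u := by
  classical
  by_cases hsafe : Safe Om s0 K ℓ u
  · exact ⟨K, ℓ, hK, hℓ, fun _ _ _ => rfl, fun _ => le_rfl, hsafe⟩
  unfold Safe at hsafe
  push Not at hsafe
  obtain ⟨K1, hK1, hext, Q, hQ, hQ0, hQK⟩ := hsafe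
  let A : Set V := {v | ∃ s i, ℓ s ≤ i ∧ v = K1 s i}
  let D : Set V := {v | ∀ s i, v ≠ K1 s i}
  have hAD : Disjoint A D := by
    rw [Set.disjoint_left]
    rintro v ⟨s, i, _, hv⟩ hD
    exact hD s i hv
  have hFfin : {v | ∃ s i, i < ℓ s ∧ v = K1 s i}.Finite := by
    refine (hℓ.biUnion fun s _ => ((Set.finite_Iio (ℓ s)).image (K1 s))).subset ?_
    rintro v ⟨s, i, hi, rfl⟩
    simp only [Set.mem_iUnion]
    exact ⟨s, by simp; omega, i, hi, rfl⟩
  obtain ⟨z, hzT, hz⟩ := separation (A := A) (D := D) (u := u) hE hAD hFfin.toFinset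
    (by
      intro v
      by_cases hD : v ∈ D
      · exact Or.inr (Or.inl hD)
      · simp only [D, Set.mem_ofPred_eq, not_forall, not_not] at hD
        obtain ⟨s, i, hsi⟩ := hD
        rcases le_or_gt (ℓ s) i with h | h
        · exact Or.inl ⟨s, i, h, hsi⟩
        · exact Or.inr (Or.inr (by simpa using ⟨s, i, h, hsi⟩)))
    (hK1.mem (Classical.arbitrary S)) (fun n h => h _ n rfl) hQ hQ0
    (fun n s i => hQK s n i)
  obtain ⟨R, ⟨hROm, ⟨s, i, hi, hRa⟩, hRD⟩, n, rfl⟩ := hzT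
  -- the new ray
  let N : ℕ → V := fun m => if m ≤ i then K1 s m else R (m - i)
  have hN1 : ∀ m, m ≤ i → N m = K1 s m := fun m hm => by simp [N, hm]
  have hN2 : ∀ m, N (i + m) = R m := by
    intro m
    rcases Nat.eq_zero_or_pos m with rfl | hm
    · simp [N, hRa]
    · simp only [N]
      rw [if_neg (by omega), Nat.add_sub_cancel_left]
  have hrayK := hE.ray _ (hK1.mem s)
  have hrayR := hE.ray R hROm
  have hNcase : ∀ m, (m ≤ i ∧ N m = K1 s m) ∨ ∃ k, m = i + (k + 1) ∧ N m = R (k + 1) := by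
    intro m
    rcases le_or_gt m i with h | h
    · exact Or.inl ⟨h, hN1 m h⟩
    · obtain ⟨k, rfl⟩ := Nat.exists_eq_add_of_lt h
      exact Or.inr ⟨k, by ring, by rw [add_assoc, hN2]⟩
  have hNray : IsRay G N := by
    refine ⟨fun m => ?_, fun m m' hmm => ?_⟩
    · rcases lt_or_ge m i with h | h
      · rw [hN1 m (by omega), hN1 (m + 1) (by omega)]
        exact hrayK.adj m
      · obtain ⟨k, rfl⟩ := Nat.exists_eq_add_of_le h
        rw [add_assoc, hN2, hN2]
        exact hrayR.adj k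
    · rcases hNcase m with ⟨_, h1⟩ | ⟨k, hk, h1⟩ <;> rcases hNcase m' with ⟨_, h2⟩ | ⟨k', hk', h2⟩
      · rw [h1, h2] at hmm
        exact hrayK.inj hmm
      · rw [h1, h2] at hmm
        exact absurd hmm.symm (hRD k' s m)
      · rw [h1, h2] at hmm
        exact absurd hmm (hRD k s m')
      · rw [h1, h2] at hmm
        have := hrayR.inj hmm
        omega
  have hNOm : N ∈ Om := hE.tail R hROm N hNray ⟨i, 0, fun m => by rw [hN2, zero_add]⟩
  have hNdisj : ∀ t, t ≠ s → ∀ a b, N a ≠ K1 t b := by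
    intro t ht a b hab
    rcases hNcase a with ⟨_, h1⟩ | ⟨k, _, h1⟩
    · rw [h1] at hab
      exact ht (hK1.disj _ _ _ _ hab).symm
    · rw [h1] at hab
      exact hRD k t b hab
  let K2 : S → ℕ → V := Function.update K1 s N
  let ℓ2 : S → ℕ := Function.update ℓ s (i + (n + 1))
  have hK2s : K2 s = N := by simp [K2]
  have hK2t : ∀ t, t ≠ s → K2 t = K1 t := fun t ht => by simp [K2, ht]
  have hℓ2s : ℓ2 s = i + (n + 1) := by simp [ℓ2]
  have hℓ2t : ∀ t, t ≠ s → ℓ2 t = ℓ t := fun t ht => by simp [ℓ2, ht]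
  have hle : ∀ t, ℓ t ≤ ℓ2 t := by
    intro t
    by_cases ht : t = s
    · subst ht
      rw [hℓ2s]
      omega
    · rw [hℓ2t t ht]
  have hSys : Sys Om s0 K2 := by
    refine ⟨fun t => ?_, fun t => ?_, fun t t' a b hab => ?_⟩
    · by_cases ht : t = s
      · subst ht
        rw [hK2s]
        exact hNOm
      · rw [hK2t t ht]
        exact hK1.mem t
    · by_cases ht : t = s
      · subst ht
        rw [hK2s, hN1 0 (by omega)]
        exact hK1.start t
      · rw [hK2t t ht]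
        exact hK1.start t
    · by_cases ht : t = s <;> by_cases ht' : t' = s
      · rw [ht, ht']
      · rw [ht, hK2s, hK2t t' ht'] at hab
        exact absurd hab (hNdisj t' ht' _ _)
      · rw [ht', hK2s, hK2t t ht] at hab
        exact absurd hab.symm (hNdisj t ht _ _)
      · rw [hK2t t ht, hK2t t' ht'] at hab
        exact hK1.disj _ _ _ _ hab
  have hExt2 : ∀ t a, a ≤ ℓ t → K2 t a = K1 t a := by
    intro t a ha
    by_cases ht : t = s
    · subst ht
      rw [hK2s]
      exact hN1 a (ha.trans hi)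
    · rw [hK2t t ht]
  refine ⟨K2, ℓ2, hSys, ?_, fun t a ha => (hExt2 t a ha).trans (hext t a ha), hle, ?_⟩
  · refine (hℓ.insert s).subset ?_
    intro t ht
    by_cases hts : t = s
    · exact Or.inl hts
    · right
      simpa [hℓ2t t hts] using ht
  · intro K3 hK3 hext3 W hW hW0
    obtain ⟨m, hm | hm⟩ := hz W hW hW0
    · refine ⟨s, m, i + (n + 1), ?_⟩
      rw [hm, hext3 s _ hℓ2s.ge, hK2s, hN2]
    · simp only [Set.Finite.mem_toFinset, Set.mem_ofPred_eq] at hm
      obtain ⟨t, a, ha, hma⟩ := hm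
      exact ⟨t, m, a, by rw [hma, hext3 t a (ha.le.trans (hle t)), hExt2 t a ha.le]⟩

/-- A connection uses only finitely many vertices. -/
theorem conn_finite {X : Set V} {a b : V} (ha : a ∈ X) (h : Conn G X a b) :
    ∃ L : Finset V, a ∈ L ∧ b ∈ L ∧ (∀ v ∈ L, v ∈ X) ∧ Conn G (L : Set V) a b := by
  classical
  induction h with
  | refl => exact ⟨{a}, by simp, by simp, by simpa using ha, .refl⟩
  | tail _ hbc ih =>
    rename_i b c _
    obtain ⟨L, haL, hbL, hLX, hc⟩ := ih
    refine ⟨insert c L, by simp [haL], by simp, ?_, ?_⟩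
    · intro v hv
      rcases Finset.mem_insert.1 hv with rfl | hv
      · exact hbc.2.2
      · exact hLX v hv
    · exact (conn_mono (by simp) hc).tail ⟨hbc.1, by simp [hbL], by simp⟩

/-- The states of the construction. -/
structure State (Om : Set (ℕ → V)) {S : Type u} (s0 : S → V) where
  K : S → ℕ → V
  l : S → ℕ
  X : Finset V
  sys : Sys Om s0 K
  fin : {s | l s ≠ 0}.Finite

/-- One step of the construction. -/
structure Step (G : SimpleGraph V) (Om : Set (ℕ → V)) {S : Type u} (s0 : S → V) (R0 : ℕ → V)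
    (u : V) (s : S) (P P' : State Om s0) : Prop where
  ext : Ext P.K P.l P'.K
  le : ∀ t, P.l t ≤ P'.l t
  lt : P.l s < P'.l s
  safe : Safe Om s0 P'.K P'.l u
  sub : P.X ⊆ P'.X
  link : ∃ L : Finset V, L ⊆ P'.X ∧ Disjoint L P.X ∧ ∃ i j, i ≤ P'.l s ∧ P'.K s i ∈ L ∧
    R0 j ∈ L ∧ Conn G (L : Set V) (R0 j) (P'.K s i)

theorem exists_step (hE : EndLike G Om) {S : Type u} {s0 : S → V} {R0 : ℕ → V}
    (hR0 : R0 ∈ Om) (u : V) (s : S) (P : State Om s0) : ∃ P', Step G Om s0 R0 u s P P' := by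
  classical
  have : Nonempty S := ⟨s⟩
  obtain ⟨K, ℓ, hK, hℓ, hext, hle, hsafe⟩ := key_lemma hE P.sys P.fin u
  obtain ⟨j, _, i, hi, hjX, hiX, hconn⟩ := hE.conn R0 hR0 (K s) (hK.mem s) P.X (ℓ s + 1)
  obtain ⟨L, h1, h2, h3, h4⟩ := conn_finite (X := {v | v ∉ P.X}) hjX hconn
  have hle2 : ∀ t, ℓ t ≤ Function.update ℓ s i t := by
    intro t
    by_cases ht : t = s
    · subst ht
      simp
      omega
    · simp [ht]
  refine ⟨⟨K, Function.update ℓ s i, P.X ∪ L, hK, ?_⟩, hext, fun t => (hle t).trans (hle2 t), ?_,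
    ?_, Finset.subset_union_left, L, Finset.subset_union_right, ?_, i, j, by simp, h2, h1, h4⟩
  · refine (hℓ.insert s).subset ?_
    intro t ht
    by_cases hts : t = s
    · exact Or.inl hts
    · right
      simpa [hts] using ht
  · have := hle s
    simp
    omega
  · intro K3 hK3 hext3
    exact hsafe K3 hK3 fun t a ha => hext3 t a (ha.trans (hle2 t))
  · rw [Finset.disjoint_left]
    exact h3

theorem main_core (hE : EndLike G Om) {S : Type u} {s0 : S → V} {K : S → ℕ → V}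
    (hK : Sys Om s0 K) (f : ℕ → S) (hf : ∀ s, {n | f n = s}.Infinite) (g : ℕ → V)
    (hg : ∀ R ∈ Om, ∃ i n, R i = g n) :
    ∃ K', Sys Om s0 K' ∧ ∀ W ∈ Om, ∃ s i j, W i = K' s j := by
  classical
  have hR0 : K (f 0) ∈ Om := hK.mem _
  generalize K (f 0) = R0 at hR0
  choose next hnext using fun (n : ℕ) (P : State Om s0) =>
    exists_step hE hR0 (g n) (f n) P
  let P : ℕ → State Om s0 := fun n => Nat.rec ⟨K, fun _ => 0, ∅, hK, by simp⟩ (fun n P => next n P) n
  have hP : ∀ n, Step G Om s0 R0 (g n) (f n) (P n) (P (n + 1)) := fun n => hnext n (P n)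
  -- monotonicity
  have hlmono : ∀ s m n, m ≤ n → (P m).l s ≤ (P n).l s := by
    intro s m n hmn
    induction n, hmn using Nat.le_induction with
    | base => exact le_rfl
    | succ n _ ih => exact ih.trans ((hP n).le s)
  have hXmono : ∀ m n, m ≤ n → (P m).X ⊆ (P n).X := by
    intro m n hmn
    induction n, hmn using Nat.le_induction with
    | base => exact subset_rfl
    | succ n _ ih => exact ih.trans (hP n).sub
  have hext : ∀ m n, m ≤ n → Ext (P m).K (P m).l (P n).K := by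
    intro m n hmn
    induction n, hmn using Nat.le_induction with
    | base => exact fun _ _ _ => rfl
    | succ n hmn ih =>
      intro s i hi
      rw [(hP n).ext s i (hi.trans (hlmono s m n hmn)), ih s i hi]
  have hunb : ∀ s i, ∃ n, i ≤ (P n).l s := by
    intro s i
    induction i with
    | zero => exact ⟨0, Nat.zero_le _⟩
    | succ i ih =>
      obtain ⟨n, hn⟩ := ih
      obtain ⟨m, hm, hnm⟩ := (hf s).exists_gt n
      refine ⟨m + 1, ?_⟩
      have h1 := (hP m).lt
      have h2 := hlmono s n m hnm.le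
      have hm' : f m = s := hm
      rw [hm'] at h1
      omega
  choose N hN using hunb
  let K' : S → ℕ → V := fun s i => (P (N s i)).K s i
  have hK' : ∀ n, Ext (P n).K (P n).l K' := by
    intro n s i hi
    change (P (N s i)).K s i = _
    rcases le_total n (N s i) with h | h
    · exact hext _ _ h s i hi
    · exact (hext _ _ h s i (hN s i)).symm
  have hfinal : ∀ s i, ∀ n, N s i ≤ n → K' s i = (P n).K s i := by
    intro s i n hn
    exact hK' n s i ((hN s i).trans (hlmono s _ _ hn))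
  have hray : ∀ s, IsRay G (K' s) := by
    intro s
    refine ⟨fun n => ?_, fun a b hab => ?_⟩
    · have h1 := hfinal s n (max (N s n) (N s (n + 1))) (le_max_left _ _)
      have h2 := hfinal s (n + 1) (max (N s n) (N s (n + 1))) (le_max_right _ _)
      rw [h1, h2]
      exact (hE.ray _ ((P _).sys.mem s)).adj n
    · have h1 := hfinal s a (max (N s a) (N s b)) (le_max_left _ _)
      have h2 := hfinal s b (max (N s a) (N s b)) (le_max_right _ _)
      rw [h1, h2] at hab
      exact (hE.ray _ ((P _).sys.mem s)).inj hab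
  have hsys : Sys Om s0 K' := by
    refine ⟨fun s => ?_, fun s => ?_, fun s t i j hij => ?_⟩
    · refine hE.close R0 hR0 _ (hray s) fun X => ?_
      by_contra hno
      push Not at hno
      have hmeet : ∀ n, f n = s → ∃ x ∈ X, x ∈ (P (n + 1)).X ∧ x ∉ (P n).X := by
        intro n hn
        obtain ⟨L, hL1, hL2, i, j, hi, hiL, hjL, hc⟩ := (hP n).link
        rw [hn] at hi hiL hc
        by_contra hno2
        push Not at hno2
        have hLX : ∀ v ∈ L, v ∉ X := fun v hv hvX =>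
          Finset.disjoint_left.1 hL2 hv (hno2 v hvX (hL1 hv))
        rw [← hK' (n + 1) s i hi] at hiL hc
        exact hno j i (hLX _ hjL) (hLX _ hiL) (conn_mono hLX hc)
      have : Nonempty V := ⟨g 0⟩
      choose! x hx1 hx2 hx3 using hmeet
      have hinj : Set.InjOn x {n | f n = s} := by
        intro m hm n hn hmn
        by_contra hne
        rcases lt_or_gt_of_ne hne with h | h
        · exact hx3 n hn (hXmono (m + 1) n h (hmn ▸ hx2 m hm))
        · exact hx3 m hm (hXmono (n + 1) m h (hmn ▸ hx2 n hn))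
      exact (hf s) (Set.Finite.of_injOn (t := (X : Set V)) (fun n hn => hx1 n hn) hinj
        X.finite_toSet)
    · rw [hK' 0 s 0 (Nat.zero_le _)]
      exact (P 0).sys.start s
    · have h1 := hfinal s i (max (N s i) (N t j)) (le_max_left _ _)
      have h2 := hfinal t j (max (N s i) (N t j)) (le_max_right _ _)
      rw [h1, h2] at hij
      exact (P _).sys.disj _ _ _ _ hij
  refine ⟨K', hsys, fun W hW => ?_⟩
  obtain ⟨i, n, hin⟩ := hg W hW
  have hrayW := hE.ray W hW
  obtain ⟨s, a, b, hab⟩ := (hP n).safe K' hsys (hK' (n + 1)) (fun k => W (i + k))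
    (hE.tail W hW _ (hrayW.drop i) ⟨0, i, fun k => by simp⟩) (by simpa using hin)
  exact ⟨s, i + a, b, hab⟩

end core

/-- A ray leaves every finite set. -/
theorem ray_leaves {V : Type u} {G : SimpleGraph V} {R : ℕ → V} (h : IsRay G R) (S : Finset V) :
    ∃ m, ∀ i ≥ m, R i ∉ S := by
  have := h.inj.tendsto_cofinite.eventually (S.finite_toSet.compl_mem_cofinite)
  rw [Nat.cofinite_eq_atTop, Filter.eventually_atTop] at this
  obtain ⟨m, hm⟩ := this
  exact ⟨m, fun i hi => hm i hi⟩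

theorem conn_iff {V : Type u} {G : SimpleGraph V} {X : Set V} {a b : V} (ha : a ∈ X)
    (hb : b ∈ X) : (G.induce X).Reachable ⟨a, ha⟩ ⟨b, hb⟩ ↔ Conn G X a b := by
  constructor
  · intro h
    rw [SimpleGraph.reachable_iff_reflTransGen] at h
    have key : ∀ x y : X, Relation.ReflTransGen (G.induce X).Adj x y → Conn G X x y := by
      intro x y hxy
      induction hxy with
      | refl => exact .refl
      | tail _ hbc ih => exact ih.tail ⟨hbc, Subtype.prop _, Subtype.prop _⟩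
    exact key _ _ h
  · intro h
    induction h with
    | refl => exact SimpleGraph.Reachable.refl _
    | tail _ hbc ih =>
      exact (ih hbc.2.1).trans (SimpleGraph.Adj.reachable (by simpa using hbc.1))

theorem endLike {V : Type u} {G : SimpleGraph V} {ω : Set (ℕ → V)} (hω : IsEnd G ω) :
    EndLike G ω := by
  classical
  obtain ⟨R0, hR0, rfl⟩ := hω
  have hequiv : ∀ {R R' : ℕ → V}, RayEquiv G R R' ↔ ∀ S : Finset V, ∃ m, ∀ i ≥ m, ∀ j ≥ m,
      R i ∉ S ∧ R' j ∉ S ∧ Conn G {v | v ∉ S} (R i) (R' j) := by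
    intro R R'
    refine forall_congr' fun S => exists_congr fun m => ?_
    constructor
    · intro h i hi j hj
      obtain ⟨h1, h2, h3⟩ := h i hi j hj
      exact ⟨h1, h2, (conn_iff (X := {v | v ∉ S}) h1 h2).1 h3⟩
    · intro h i hi j hj
      obtain ⟨h1, h2, h3⟩ := h i hi j hj
      exact ⟨h1, h2, (conn_iff (X := {v | v ∉ S}) h1 h2).2 h3⟩
  have htrans : ∀ {R R' R'' : ℕ → V}, RayEquiv G R R' → RayEquiv G R' R'' → RayEquiv G R R'' := by
    intro R R' R'' h h'
    rw [hequiv] at h h' ⊢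
    intro S
    obtain ⟨m, hm⟩ := h S
    obtain ⟨m', hm'⟩ := h' S
    refine ⟨max m m', fun i hi j hj => ?_⟩
    have h1 := hm i (le_trans (le_max_left _ _) hi) (max m m') (le_max_left _ _)
    have h2 := hm' (max m m') (le_max_right _ _) j (le_trans (le_max_right _ _) hj)
    exact ⟨h1.1, h2.2.1, h1.2.2.trans h2.2.2⟩
  have hsymm : ∀ {R R' : ℕ → V}, RayEquiv G R R' → RayEquiv G R' R := by
    intro R R' h
    rw [hequiv] at h ⊢
    intro S
    obtain ⟨m, hm⟩ := h S
    refine ⟨m, fun i hi j hj => ?_⟩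
    have h1 := hm j hj i hi
    exact ⟨h1.2.1, h1.1, conn_symm h1.2.2⟩
  have hclose : ∀ {R R' : ℕ → V}, IsRay G R → IsRay G R' →
      (∀ X : Finset V, ∃ i j, R i ∉ X ∧ R' j ∉ X ∧ Conn G {v | v ∉ X} (R i) (R' j)) →
      RayEquiv G R R' := by
    intro R R' hR hR' h
    rw [hequiv]
    intro S
    obtain ⟨m, hm⟩ := ray_leaves hR S
    obtain ⟨m', hm'⟩ := ray_leaves hR' S
    obtain ⟨i0, j0, hi0, hj0, hc⟩ := h (S ∪ (Finset.range m).image R ∪ (Finset.range m').image R')
    have hi0' : m ≤ i0 := by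
      by_contra hlt
      exact hi0 (by simp only [Finset.mem_union, Finset.mem_image, Finset.mem_range]
                    exact Or.inl (Or.inr ⟨i0, by omega, rfl⟩))
    have hj0' : m' ≤ j0 := by
      by_contra hlt
      exact hj0 (by simp only [Finset.mem_union, Finset.mem_image, Finset.mem_range]
                    exact Or.inr ⟨j0, by omega, rfl⟩)
    have hc' : Conn G {v | v ∉ S} (R i0) (R' j0) := by
      refine conn_mono ?_ hc
      intro v hv hvS
      exact hv (by simp [hvS])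
    have hseg : ∀ {Q : ℕ → V} {k : ℕ}, IsRay G Q → (∀ i ≥ k, Q i ∉ S) → ∀ a ≥ k, ∀ b ≥ k,
        Conn G {v | v ∉ S} (Q a) (Q b) := by
      intro Q k hQ hk a ha b hb
      rcases le_total a b with hab | hab
      · exact conn_ray hQ hab fun n hn _ => hk n (by omega)
      · exact conn_symm (conn_ray hQ hab fun n hn _ => hk n (by omega))
    refine ⟨max m m', fun i hi j hj => ?_⟩
    have hi' : m ≤ i := le_trans (le_max_left _ _) hi
    have hj' : m' ≤ j := le_trans (le_max_right _ _) hj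
    exact ⟨hm i hi', hm' j hj', ((hseg hR hm i hi' i0 hi0').trans hc').trans
      (hseg hR' hm' j0 hj0' j hj')⟩
  refine ⟨fun R hR => hR.1, ?_, ?_, ?_⟩
  · rintro R ⟨hR, hRe⟩ R' hR' ⟨k, m, hkm⟩
    refine ⟨hR', htrans hRe (hclose hR hR' fun X => ?_)⟩
    obtain ⟨a, ha⟩ := ray_leaves hR X
    have h1 := ha (m + a) (by omega)
    exact ⟨m + a, k + a, h1, by rw [hkm]; exact h1, by rw [hkm]⟩
  · rintro R ⟨_, hRe⟩ R' ⟨_, hRe'⟩ X N
    obtain ⟨m, hm⟩ := hequiv.1 (htrans (hsymm hRe) hRe') X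
    have := hm (max m N) (le_max_left _ _) (max m N) (le_max_left _ _)
    exact ⟨max m N, le_max_right _ _, max m N, le_max_right _ _, this⟩
  · rintro R ⟨hR, hRe⟩ R' hR' h
    exact ⟨hR', htrans hRe (hclose hR hR' h)⟩

/-- Let `ω` be a countable end of a graph `G`, and let `K` be an infinite family of pairwise
disjoint rays of `ω`. Then `G` has a family `K'` of pairwise disjoint rays of `ω` which devours
`ω` and has the same set of starting vertices as `K`. -/
theorem result {V : Type u} (G : SimpleGraph V) (ω : Set (ℕ → V)) (hω : IsEnd G ω)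
    (hc : IsCountableEnd G ω) (K : Set (ℕ → V)) (hK : K ⊆ ω)
    (hdisj : K.PairwiseDisjoint Set.range) (hinf : K.Infinite) :
    ∃ K' ⊆ ω, K'.PairwiseDisjoint Set.range ∧ Devours K' ω ∧
      (fun R : ℕ → V => R 0) '' K' = (fun R : ℕ → V => R 0) '' K := by
  classical
  have hE := endLike hω
  obtain ⟨P, hPc, hPray, hPdev⟩ := hc
  obtain ⟨R1, hR1⟩ := hinf.nonempty
  -- the countable set of vertices
  let U : Set V := ⋃ R ∈ P, Set.range R
  have hUc : U.Countable := hPc.biUnion fun R _ => Set.countable_range R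
  have hU : ∀ R ∈ ω, ∃ i, R i ∈ U := by
    intro R hR
    obtain ⟨R', hR', i, j, hij⟩ := hPdev R hR
    exact ⟨i, Set.mem_biUnion hR' ⟨j, hij.symm⟩⟩
  have hUne : U.Nonempty := by
    obtain ⟨i, hi⟩ := hU R1 (hK hR1)
    exact ⟨_, hi⟩
  obtain ⟨g, hg⟩ := hUc.exists_eq_range hUne
  -- `K` is countable
  have hKc : K.Countable := by
    choose! idx hidx using hU
    refine Set.MapsTo.countable_of_injOn (f := fun R => R (idx R)) (t := U)
      (fun R hR => hidx R (hK hR)) ?_ hUc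
    intro R hR R' hR' hRR'
    by_contra hne
    exact Set.disjoint_left.1 (hdisj hR hR' hne) ⟨idx R, rfl⟩ ⟨idx R', hRR'.symm⟩
  have : Countable K := hKc
  have : Nonempty K := ⟨⟨R1, hR1⟩⟩
  obtain ⟨e, he⟩ := exists_surjective_nat K
  obtain ⟨K', hK', hdev⟩ := main_core hE (S := K) (s0 := fun s => s.1 0) (K := fun s => s.1)
    ⟨fun s => hK s.2, fun _ => rfl, fun s t i j hij => by
      by_contra hne
      exact Set.disjoint_left.1 (hdisj s.2 t.2 (fun h => hne (Subtype.ext h))) ⟨i, rfl⟩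
        ⟨j, hij.symm⟩⟩
    (fun n => e (Nat.unpair n).1) (by
      intro s
      obtain ⟨k, hk⟩ := he s
      refine Set.infinite_of_injective_forall_mem (f := fun m => Nat.pair k m) ?_ ?_
      · intro a b hab
        simpa using hab
      · intro m
        simp [hk])
    g (by
      intro R hR
      obtain ⟨i, hi⟩ := hU R hR
      rw [hg] at hi
      obtain ⟨n, hn⟩ := hi
      exact ⟨i, n, hn.symm⟩)
  refine ⟨Set.range K', ?_, ?_, ?_, ?_⟩
  · rintro _ ⟨s, rfl⟩
    exact hK'.mem s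
  · rintro _ ⟨s, rfl⟩ _ ⟨t, rfl⟩ hne
    rw [Function.onFun, Set.disjoint_left]
    rintro _ ⟨i, rfl⟩ ⟨j, hj⟩
    exact hne (by rw [hK'.disj t s j i hj])
  · intro W hW
    obtain ⟨s, i, j, hij⟩ := hdev W hW
    exact ⟨K' s, ⟨s, rfl⟩, i, j, hij⟩
  · ext v
    constructor
    · rintro ⟨_, ⟨s, rfl⟩, rfl⟩
      exact ⟨s.1, s.2, (hK'.start s).symm⟩
    · rintro ⟨R, hR, rfl⟩
      exact ⟨K' ⟨R, hR⟩, ⟨_, rfl⟩, hK'.start ⟨R, hR⟩⟩

end Pool.Agent.L5helper30.EndDevouring
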