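import Mathlib
import Pool.Agent.L5helper10.TV.Num

/-!
# A Tauberian lemma: means against `(2 - 2 cos (X y)) / y ^ 2` determine the mean on `[1, 2]`
(for helper12's plan on MP_8958e8_nt)
-/

set_option autoImplicit false

open Filter Topology Set MeasureTheory FourierTransform
open scoped SchwartzMap ContDiff

namespace Pool.Agent.L5helper30.PVTau

/-- the kernel -/
noncomputable def w (x y : ℝ) : ℝ := (2 - 2 * Real.cos (x * y)) / y ^ 2

lemma w_nonneg (x y : ℝ) : 0 ≤ w x y := by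
  unfold w
  have := Real.cos_le_one (x * y)
  exact div_nonneg (by linarith) (sq_nonneg _)

lemma w_le_four (x y : ℝ) : w x y ≤ 4 / y ^ 2 := by
  unfold w
  have := Real.neg_one_le_cos (x * y)
  exact div_le_div_of_nonneg_right (by linarith) (sq_nonneg _)

lemma w_le_sq (x y : ℝ) : w x y ≤ x ^ 2 := by
  unfold w
  rcases eq_or_ne y 0 with h | h
  · rw [h]; simp; positivity
  · rw [div_le_iff₀ (by positivity)]
    have := Real.one_sub_sq_div_two_le_cos (x := x * y)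
    nlinarith [this]

lemma w_cont (x : ℝ) : ContinuousOn (w x) (Ioi 0) := by
  unfold w
  refine ContinuousOn.div (by fun_prop) (by fun_prop) ?_
  intro y hy
  exact pow_ne_zero _ (ne_of_gt hy)

lemma sub_Ioi {a b : ℝ} (ha : 0 < a) (hb : 0 < b) : uIcc a b ⊆ Ioi 0 := by
  intro t ht
  have h1 := ht.1
  exact lt_of_lt_of_le (lt_min ha hb) h1

lemma ii {f : ℝ → ℝ} (hf : ContinuousOn f (Ioi 0)) {a b : ℝ} (ha : 0 < a) (hb : 0 < b) :
    IntervalIntegrable f volume a b :=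
  (hf.mono (sub_Ioi ha hb)).intervalIntegrable

section
variable {ν : ℝ → ℝ → ℝ} {ρ C0 : ℝ} (hC0 : 0 ≤ C0) (hc : ∀ T, Continuous (ν T))
  (h0 : ∀ T y, 0 ≤ ν T y)
  (A0 : ∀ V : ℝ, 0 < V → ∀ᶠ T in atTop, ∫ y in V..(2 * V), ν T y ≤ C0 * V)

include hc A0 in
/-- dyadic layers -/
lemma layers (V : ℝ) (hV : 0 < V) (n : ℕ) :
    ∀ᶠ T in atTop, ∫ y in V..(V * 2 ^ n), ν T y ≤ C0 * V * (2 ^ n - 1) := by
  induction n with
  | zero => simp
  | succ n ih =>
    filter_upwards [ih, A0 (V * 2 ^ n) (by positivity)] with T h1 h2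
    have hint : ∀ a b : ℝ, IntervalIntegrable (ν T) volume a b := fun a b =>
      (hc T).intervalIntegrable a b
    rw [← intervalIntegral.integral_add_adjacent_intervals (hint V (V * 2 ^ n)) (hint _ _)]
    rw [show V * 2 ^ (n + 1) = 2 * (V * 2 ^ n) by ring]
    have : C0 * V * (2 ^ (n + 1) - 1) = C0 * V * (2 ^ n - 1) + C0 * (V * 2 ^ n) := by ring
    rw [this]
    linarith

include hc h0 A0 in
/-- dyadic layers, with the weight `y ^ (-2)` -/
lemma layers_sq (V : ℝ) (hV : 0 < V) (n : ℕ) :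
    ∀ᶠ T in atTop, ∫ y in V..(V * 2 ^ n), ν T y / y ^ 2 ≤ C0 / V * (2 * (1 - (2 ^ n)⁻¹)) := by
  induction n with
  | zero => simp
  | succ n ih =>
    have hW : 0 < V * 2 ^ n := by positivity
    filter_upwards [ih, A0 (V * 2 ^ n) hW] with T h1 h2
    have hcont : ContinuousOn (fun y => ν T y / y ^ 2) (Ioi 0) :=
      ((hc T).continuousOn).div (by fun_prop) fun y hy => pow_ne_zero _ (ne_of_gt hy)
    rw [← intervalIntegral.integral_add_adjacent_intervals (ii hcont hV hW)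
      (ii hcont hW (show 0 < V * 2 ^ (n + 1) by positivity))]
    rw [show V * 2 ^ (n + 1) = 2 * (V * 2 ^ n) by ring]
    have h3 : ∫ y in (V * 2 ^ n)..(2 * (V * 2 ^ n)), ν T y / y ^ 2 ≤
        ∫ y in (V * 2 ^ n)..(2 * (V * 2 ^ n)), ν T y * ((V * 2 ^ n) ^ 2)⁻¹ := by
      refine intervalIntegral.integral_mono_on (by linarith) (ii hcont hW (by positivity))
        (((hc T).mul continuous_const).intervalIntegrable _ _) ?_
      intro y hy
      rw [div_eq_mul_inv]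
      refine mul_le_mul_of_nonneg_left ?_ (h0 T y)
      exact inv_anti₀ (by positivity) (pow_le_pow_left₀ hW.le hy.1 2)
    rw [intervalIntegral.integral_mul_const] at h3
    have h4 : (∫ y in (V * 2 ^ n)..(2 * (V * 2 ^ n)), ν T y) * ((V * 2 ^ n) ^ 2)⁻¹ ≤
        C0 * (V * 2 ^ n) * ((V * 2 ^ n) ^ 2)⁻¹ :=
      mul_le_mul_of_nonneg_right h2 (by positivity)
    have h5 : C0 * (V * 2 ^ n) * ((V * 2 ^ n) ^ 2)⁻¹ = C0 / V * (2 ^ n)⁻¹ := by
      field_simp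
    have h6 : C0 / V * (2 * (1 - (2 ^ (n + 1))⁻¹)) =
        C0 / V * (2 * (1 - (2 ^ n)⁻¹)) + C0 / V * (2 ^ n)⁻¹ := by
      rw [pow_succ]
      field_simp
      ring
    rw [h6]
    linarith

lemma split3 {f : ℝ → ℝ} (hf : ContinuousOn f (Ioi 0)) {a b c d : ℝ} (ha : 0 < a) (hb : 0 < b)
    (hc : 0 < c) (hd : 0 < d) :
    ∫ y in a..d, f y = (∫ y in a..b, f y) + (∫ y in b..c, f y) + ∫ y in c..d, f y := by
  rw [intervalIntegral.integral_add_adjacent_intervals (ii hf ha hb) (ii hf hb hc),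
    intervalIntegral.integral_add_adjacent_intervals (ii hf ha hc) (ii hf hc hd)]

include hC0 hc h0 A0 in
/-- the tails -/
lemma tail (x : ℝ) (m n : ℕ) (hmn : m ≤ n) :
    ∀ᶠ T in atTop, ∫ y in ((2 : ℝ) ^ n)⁻¹..2 ^ n, w x y * ν T y ≤
      (∫ y in ((2 : ℝ) ^ m)⁻¹..2 ^ m, w x y * ν T y) + C0 * (x ^ 2 + 8) * ((2 : ℝ) ^ m)⁻¹ := by
  obtain ⟨k, rfl⟩ := Nat.exists_eq_add_of_le hmn
  have hpn : (0 : ℝ) < ((2 : ℝ) ^ (m + k))⁻¹ := by positivity
  have hpm : (0 : ℝ) < ((2 : ℝ) ^ m)⁻¹ := by positivity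
  filter_upwards [layers hc A0 _ hpn k, layers_sq hc h0 A0 (2 ^ m) (by positivity) k] with T h1 h2
  have hcont : ContinuousOn (fun y => w x y * ν T y) (Ioi 0) :=
    (w_cont x).mul (hc T).continuousOn
  rw [split3 hcont hpn hpm (show (0 : ℝ) < 2 ^ m by positivity) (by positivity)]
  have e1 : ((2 : ℝ) ^ (m + k))⁻¹ * 2 ^ k = ((2 : ℝ) ^ m)⁻¹ := by
    rw [pow_add]; field_simp
  rw [e1] at h1
  have e2 : (2 : ℝ) ^ m * 2 ^ k = 2 ^ (m + k) := by rw [pow_add]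
  rw [e2] at h2
  have hle : ((2 : ℝ) ^ (m + k))⁻¹ ≤ ((2 : ℝ) ^ m)⁻¹ :=
    inv_anti₀ (by positivity) (pow_le_pow_right₀ (by norm_num) (by omega))
  have hle2 : (2 : ℝ) ^ m ≤ 2 ^ (m + k) := pow_le_pow_right₀ (by norm_num) (by omega)
  have h3 : ∫ y in ((2 : ℝ) ^ (m + k))⁻¹..((2 : ℝ) ^ m)⁻¹, w x y * ν T y ≤
      x ^ 2 * ∫ y in ((2 : ℝ) ^ (m + k))⁻¹..((2 : ℝ) ^ m)⁻¹, ν T y := by
    rw [← intervalIntegral.integral_const_mul]
    refine intervalIntegral.integral_mono_on hle (ii hcont hpn hpm)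
      ((continuous_const.mul (hc T)).intervalIntegrable _ _) ?_
    intro y _
    exact mul_le_mul_of_nonneg_right (w_le_sq x y) (h0 T y)
  have h4 : ∫ y in (2 : ℝ) ^ m..2 ^ (m + k), w x y * ν T y ≤
      4 * ∫ y in (2 : ℝ) ^ m..2 ^ (m + k), ν T y / y ^ 2 := by
    rw [← intervalIntegral.integral_const_mul]
    have hcont2 : ContinuousOn (fun y => 4 * (ν T y / y ^ 2)) (Ioi 0) :=
      continuousOn_const.mul (((hc T).continuousOn).div (by fun_prop)
        fun y hy => pow_ne_zero _ (ne_of_gt hy))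
    refine intervalIntegral.integral_mono_on hle2 (ii hcont (by positivity) (by positivity))
      (ii hcont2 (by positivity) (by positivity)) ?_
    intro y _
    have := mul_le_mul_of_nonneg_right (w_le_four x y) (h0 T y)
    calc w x y * ν T y ≤ 4 / y ^ 2 * ν T y := this
      _ = 4 * (ν T y / y ^ 2) := by ring
  have h5 : C0 * ((2 : ℝ) ^ (m + k))⁻¹ * (2 ^ k - 1) ≤ C0 * ((2 : ℝ) ^ m)⁻¹ := by
    have : C0 * ((2 : ℝ) ^ (m + k))⁻¹ * (2 ^ k - 1) =
        C0 * (((2 : ℝ) ^ (m + k))⁻¹ * 2 ^ k) - C0 * ((2 : ℝ) ^ (m + k))⁻¹ := by ring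
    rw [this, e1]
    have : 0 ≤ C0 * ((2 : ℝ) ^ (m + k))⁻¹ := by positivity
    linarith
  have h6 : C0 / 2 ^ m * (2 * (1 - ((2 : ℝ) ^ k)⁻¹)) ≤ 2 * C0 * ((2 : ℝ) ^ m)⁻¹ := by
    have h7 : (0 : ℝ) ≤ ((2 : ℝ) ^ k)⁻¹ := by positivity
    have h8 : 0 ≤ C0 * ((2 : ℝ) ^ m)⁻¹ := by positivity
    rw [div_eq_mul_inv]
    nlinarith
  have h9 : x ^ 2 * ∫ y in ((2 : ℝ) ^ (m + k))⁻¹..((2 : ℝ) ^ m)⁻¹, ν T y ≤
      x ^ 2 * (C0 * ((2 : ℝ) ^ m)⁻¹) :=
    mul_le_mul_of_nonneg_left (le_trans h1 h5) (sq_nonneg x)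
  nlinarith

include hC0 hc A0 in
/-- the total mass -/
lemma mass (m : ℕ) : ∀ᶠ T in atTop, ∫ y in ((2 : ℝ) ^ m)⁻¹..2 ^ m, ν T y ≤ C0 * 2 ^ m := by
  filter_upwards [layers hc A0 ((2 : ℝ) ^ m)⁻¹ (by positivity) (2 * m)] with T h1
  have e1 : ((2 : ℝ) ^ m)⁻¹ * 2 ^ (2 * m) = 2 ^ m := by
    rw [two_mul, pow_add]; field_simp
  rw [e1] at h1
  refine le_trans h1 ?_
  have : C0 * ((2 : ℝ) ^ m)⁻¹ * (2 ^ (2 * m) - 1) =
      C0 * (((2 : ℝ) ^ m)⁻¹ * 2 ^ (2 * m)) - C0 * ((2 : ℝ) ^ m)⁻¹ := by ring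
  rw [this, e1]
  have : 0 ≤ C0 * ((2 : ℝ) ^ m)⁻¹ := by positivity
  linarith

end

/-- the integral of the kernel -/
lemma int_w {x : ℝ} (hx : 0 < x) {a b : ℝ} (ha : 0 < a) (hb : 0 < b) :
    ∫ y in a..b, w x y = x * ∫ t in (x * a)..(x * b), Pool.Agent.L5helper10.TV.hs t := by
  have h1 := intervalIntegral.integral_comp_mul_left (a := a) (b := b)
    Pool.Agent.L5helper10.TV.hs hx.ne'
  rw [smul_eq_mul] at h1
  have h2 : ∫ y in a..b, w x y = ∫ y in a..b, x ^ 2 * Pool.Agent.L5helper10.TV.hs (x * y) := by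
    refine intervalIntegral.integral_congr fun y hy => ?_
    have hy0 : 0 < y := sub_Ioi ha hb hy
    simp only [w, Pool.Agent.L5helper10.TV.hs]
    field_simp
  rw [h2, intervalIntegral.integral_const_mul, h1]
  field_simp

lemma int_w_le {x : ℝ} (hx : 0 < x) (m : ℕ) :
    ∫ y in ((2 : ℝ) ^ m)⁻¹..2 ^ m, w x y ≤ Real.pi * x := by
  have hle : ((2 : ℝ) ^ m)⁻¹ ≤ 2 ^ m := by
    have h1 : (1 : ℝ) ≤ 2 ^ m := one_le_pow₀ (by norm_num)
    exact le_trans (inv_le_one_of_one_le₀ h1) h1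
  rw [int_w hx (by positivity) (by positivity), mul_comm]
  refine mul_le_mul_of_nonneg_right ?_ hx.le
  exact Pool.Agent.L5helper10.TV.hs_upper _ _ (by positivity)
    (mul_le_mul_of_nonneg_left hle hx.le)

lemma le_int_w {x : ℝ} (hx : 0 < x) (m : ℕ) :
    Real.pi * x - (x ^ 2 + 4) * ((2 : ℝ) ^ m)⁻¹ ≤ ∫ y in ((2 : ℝ) ^ m)⁻¹..2 ^ m, w x y := by
  have hle : ((2 : ℝ) ^ m)⁻¹ ≤ 2 ^ m := by
    have h1 : (1 : ℝ) ≤ 2 ^ m := one_le_pow₀ (by norm_num)
    exact le_trans (inv_le_one_of_one_le₀ h1) h1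
  rw [int_w hx (by positivity) (by positivity)]
  have h := Pool.Agent.L5helper10.TV.hs_lower (x * ((2 : ℝ) ^ m)⁻¹) (x * 2 ^ m) (by positivity)
    (mul_le_mul_of_nonneg_left hle hx.le)
  have h2 := mul_le_mul_of_nonneg_left h hx.le
  refine le_trans (le_of_eq ?_) h2
  field_simp
  ring

/-- the truncated difference -/
noncomputable def HT (ν : ℝ → ℝ → ℝ) (ρ : ℝ) (m : ℕ) (T x : ℝ) : ℝ :=
  ∫ y in ((2 : ℝ) ^ m)⁻¹..2 ^ m, w x y * (ν T y - ρ)

lemma w_neg (x y : ℝ) : w (-x) y = w x y := by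
  unfold w
  rw [neg_mul, Real.cos_neg]

lemma HT_neg (ν : ℝ → ℝ → ℝ) (ρ : ℝ) (m : ℕ) (T x : ℝ) : HT ν ρ m T (-x) = HT ν ρ m T x := by
  unfold HT
  simp only [w_neg]

lemma HT_zero (ν : ℝ → ℝ → ℝ) (ρ : ℝ) (m : ℕ) (T : ℝ) : HT ν ρ m T 0 = 0 := by
  unfold HT
  have : ∀ y, w 0 y = 0 := by intro y; unfold w; simp
  simp [this]

section
variable {ν : ℝ → ℝ → ℝ} {ρ C0 : ℝ} (hρ : 0 ≤ ρ) (hC0 : 0 ≤ C0) (hc : ∀ T, Continuous (ν T))
  (h0 : ∀ T y, 0 ≤ ν T y)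
  (A0 : ∀ V : ℝ, 0 < V → ∀ᶠ T in atTop, ∫ y in V..(2 * V), ν T y ≤ C0 * V)
  (Aup : ∀ X : ℝ, 0 < X → ∀ y0 y1 : ℝ, 0 < y0 → y0 ≤ y1 → ∀ ε : ℝ, 0 < ε →
    ∀ᶠ T in atTop, ∫ y in y0..y1, w X y * ν T y ≤ X * (Real.pi * ρ + ε))
  (Alow : ∀ ε : ℝ, 0 < ε → ∃ a b : ℝ, 0 < a ∧ a ≤ b ∧ ∀ X : ℝ, 0 < X →
    ∀ᶠ T in atTop, X * (Real.pi * ρ - ε) ≤ ∫ y in (a / X)..(b / X), w X y * ν T y)

include hρ hC0 hc h0 A0 Aup Alow in
lemma HT_pos (x : ℝ) (hx : 0 < x) (m : ℕ) (ε : ℝ) (hε : 0 < ε) :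
    ∀ᶠ T in atTop, |HT ν ρ m T x| ≤ ε + (C0 + ρ) * (x ^ 2 + 8) * ((2 : ℝ) ^ m)⁻¹ := by
  have hpm : (0 : ℝ) < ((2 : ℝ) ^ m)⁻¹ := by positivity
  have hle : ((2 : ℝ) ^ m)⁻¹ ≤ 2 ^ m := by
    have h1 : (1 : ℝ) ≤ 2 ^ m := one_le_pow₀ (by norm_num)
    exact le_trans (inv_le_one_of_one_le₀ h1) h1
  obtain ⟨a, b, ha, hab, hlow⟩ := Alow (ε / x) (by positivity)
  -- choice of `n`
  obtain ⟨n, hmn, hn1, hn2⟩ : ∃ n : ℕ, m ≤ n ∧ ((2 : ℝ) ^ n)⁻¹ ≤ a / x ∧ b / x ≤ 2 ^ n := by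
    obtain ⟨n1, hn1⟩ := pow_unbounded_of_one_lt (x / a) (one_lt_two (α := ℝ))
    obtain ⟨n2, hn2⟩ := pow_unbounded_of_one_lt (b / x) (one_lt_two (α := ℝ))
    refine ⟨max m (max n1 n2), le_max_left _ _, ?_, ?_⟩
    · rw [inv_le_comm₀ (by positivity) (by positivity), inv_div]
      exact le_trans hn1.le (pow_le_pow_right₀ (by norm_num)
        (le_trans (le_max_left _ _) (le_max_right _ _)))
    · exact le_trans hn2.le (pow_le_pow_right₀ (by norm_num)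
        (le_trans (le_max_right _ _) (le_max_right _ _)))
  have hb : 0 < b := lt_of_lt_of_le ha hab
  filter_upwards [Aup x hx _ _ hpm hle (ε / x) (by positivity), hlow x hx,
    tail hC0 hc h0 A0 x m n hmn] with T h1 h2 h3
  have hcont : ContinuousOn (fun y => w x y * ν T y) (Ioi 0) :=
    (w_cont x).mul (hc T).continuousOn
  have hHT : HT ν ρ m T x = (∫ y in ((2 : ℝ) ^ m)⁻¹..2 ^ m, w x y * ν T y) -
      ρ * ∫ y in ((2 : ℝ) ^ m)⁻¹..2 ^ m, w x y := by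
    have hcont2 : ContinuousOn (fun y => ρ * w x y) (Ioi 0) :=
      continuousOn_const.mul (w_cont x)
    have h2m : (0 : ℝ) < 2 ^ m := by positivity
    unfold HT
    rw [← intervalIntegral.integral_const_mul, ← intervalIntegral.integral_sub
      (ii hcont hpm h2m) (ii hcont2 hpm h2m)]
    refine intervalIntegral.integral_congr fun y _ => ?_
    ring
  have h4 := mul_le_mul_of_nonneg_left (le_int_w hx m) hρ
  have h5 := mul_le_mul_of_nonneg_left (int_w_le hx m) hρ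
  -- monotonicity in the domain
  have h6 : ∫ y in (a / x)..(b / x), w x y * ν T y ≤
      ∫ y in ((2 : ℝ) ^ n)⁻¹..2 ^ n, w x y * ν T y := by
    rw [split3 hcont (show (0 : ℝ) < ((2 : ℝ) ^ n)⁻¹ by positivity)
      (show 0 < a / x by positivity) (show 0 < b / x by positivity) (by positivity)]
    have g1 : 0 ≤ ∫ y in ((2 : ℝ) ^ n)⁻¹..(a / x), w x y * ν T y :=
      intervalIntegral.integral_nonneg hn1 fun y _ => mul_nonneg (w_nonneg x y) (h0 T y)
    have g2 : 0 ≤ ∫ y in (b / x)..2 ^ n, w x y * ν T y :=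
      intervalIntegral.integral_nonneg hn2 fun y _ => mul_nonneg (w_nonneg x y) (h0 T y)
    linarith
  have e1 : x * (Real.pi * ρ + ε / x) = Real.pi * ρ * x + ε := by field_simp
  have e2 : x * (Real.pi * ρ - ε / x) = Real.pi * ρ * x - ε := by field_simp
  rw [e1] at h1
  rw [e2] at h2
  have h7 : 0 ≤ C0 * (x ^ 2 + 8) * ((2 : ℝ) ^ m)⁻¹ := by positivity
  have h8 : 0 ≤ ρ * ((2 : ℝ) ^ m)⁻¹ := by positivity
  have h9 : 0 ≤ ρ * (x ^ 2 + 8) * ((2 : ℝ) ^ m)⁻¹ := by positivity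
  rw [hHT, abs_le]
  constructor
  · nlinarith
  · nlinarith

include hρ hC0 hc h0 A0 Aup Alow in
lemma HT_all (x : ℝ) (m : ℕ) (ε : ℝ) (hε : 0 < ε) :
    ∀ᶠ T in atTop, |HT ν ρ m T x| ≤ ε + (C0 + ρ) * (x ^ 2 + 8) * ((2 : ℝ) ^ m)⁻¹ := by
  rcases lt_trichotomy x 0 with h | h | h
  · have := HT_pos hρ hC0 hc h0 A0 Aup Alow (-x) (by linarith) m ε hε
    filter_upwards [this] with T hT
    rw [HT_neg] at hT
    rw [neg_sq] at hT
    exact hT
  · refine Eventually.of_forall fun T => ?_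
    rw [h, HT_zero, abs_zero]
    positivity
  · exact HT_pos hρ hC0 hc h0 A0 Aup Alow x h m ε hε

include hρ hC0 hc h0 A0 in
/-- a uniform bound -/
lemma HT_bdd (m : ℕ) : ∀ᶠ T in atTop, ∀ x, |HT ν ρ m T x| ≤
    4 * (2 ^ m) ^ 2 * (C0 * 2 ^ m + ρ * 2 ^ m) := by
  have hpm : (0 : ℝ) < ((2 : ℝ) ^ m)⁻¹ := by positivity
  have hle : ((2 : ℝ) ^ m)⁻¹ ≤ 2 ^ m := by
    have h1 : (1 : ℝ) ≤ 2 ^ m := one_le_pow₀ (by norm_num)
    exact le_trans (inv_le_one_of_one_le₀ h1) h1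
  filter_upwards [mass hC0 hc A0 m] with T hT x
  unfold HT
  have h1 : ‖∫ y in ((2 : ℝ) ^ m)⁻¹..2 ^ m, w x y * (ν T y - ρ)‖ ≤
      ∫ y in ((2 : ℝ) ^ m)⁻¹..2 ^ m, 4 * (2 ^ m) ^ 2 * (ν T y + ρ) := by
    refine intervalIntegral.norm_integral_le_of_norm_le hle ?_
      ((continuous_const.mul ((hc T).add continuous_const)).intervalIntegrable _ _)
    refine Eventually.of_forall fun y hy => ?_
    have hy0 : 0 < y := lt_trans hpm hy.1
    have hy1 : w x y ≤ 4 * (2 ^ m) ^ 2 := by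
      refine le_trans (w_le_four x y) ?_
      rw [div_le_iff₀ (by positivity)]
      have h2 : (1 : ℝ) ≤ 2 ^ m * y := by
        have := hy.1.le
        rw [inv_le_iff_one_le_mul₀ (by positivity)] at this
        linarith
      have h3 : (1 : ℝ) ≤ (2 ^ m * y) ^ 2 := one_le_pow₀ h2
      nlinarith
    rw [norm_mul, Real.norm_eq_abs, Real.norm_eq_abs, abs_of_nonneg (w_nonneg x y)]
    refine mul_le_mul hy1 ?_ (abs_nonneg _) (by positivity)
    have := h0 T y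
    rw [abs_le]
    constructor <;> linarith
  rw [Real.norm_eq_abs] at h1
  refine le_trans h1 ?_
  rw [intervalIntegral.integral_const_mul, intervalIntegral.integral_add
    ((hc T).intervalIntegrable _ _) (continuous_const.intervalIntegrable _ _),
    intervalIntegral.integral_const, smul_eq_mul]
  refine mul_le_mul_of_nonneg_left ?_ (by positivity)
  have : (2 ^ m - ((2 : ℝ) ^ m)⁻¹) * ρ ≤ ρ * 2 ^ m := by nlinarith
  linarith

end

/-- Fourier representation of a smooth function with compact support in `(0, ∞)` -/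
lemma rep (τ : ℝ → ℝ) (hτ : ContDiff ℝ ∞ τ) (hcs : HasCompactSupport τ)
    (hneg : ∀ y, y ≤ 0 → τ y = 0) :
    ∃ h : ℝ → ℝ, Continuous h ∧ Integrable h ∧ Integrable (fun ξ => |h ξ| * ξ ^ 2) ∧
      ∀ y, 0 < y → τ y = ∫ ξ, h ξ * w (2 * Real.pi * ξ) y := by
  obtain ⟨g, hg⟩ : ∃ g : ℝ → ℂ, g = fun y => ((y ^ 2 * (τ y + τ (-y)) : ℝ) : ℂ) := ⟨_, rfl⟩
  have hgs : ContDiff ℝ ∞ g := by
    rw [hg]
    refine Complex.ofRealCLM.contDiff.comp ?_
    exact (contDiff_id.pow 2).mul (hτ.add (hτ.comp contDiff_neg))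
  have hgc : HasCompactSupport g := by
    rw [hg]
    have h1 : HasCompactSupport fun y : ℝ => y ^ 2 * (τ y + τ (-y)) := by
      refine HasCompactSupport.mul_left ?_
      refine hcs.add ?_
      exact hcs.comp_homeomorph (Homeomorph.neg ℝ)
    exact h1.comp_left (g := fun x : ℝ => (x : ℂ)) Complex.ofReal_zero
  obtain ⟨G, hG⟩ : ∃ G : 𝓢(ℝ, ℂ), G = hgc.toSchwartzMap hgs := ⟨_, rfl⟩
  have hGg : ∀ y, G y = g y := by intro y; rw [hG]; rfl
  obtain ⟨H, hH⟩ : ∃ H : 𝓢(ℝ, ℂ), H = 𝓕 G := ⟨_, rfl⟩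
  have hHf : (H : ℝ → ℂ) = 𝓕 (G : ℝ → ℂ) := by
    rw [hH]; rfl
  have hinv : ∀ y, G y = ∫ ξ, Complex.exp ((2 * Real.pi * (y * ξ) : ℝ) * Complex.I) * H ξ := by
    intro y
    have h1 : 𝓕⁻ (𝓕 (G : ℝ → ℂ)) = G :=
      G.continuous.fourierInv_fourier_eq G.integrable (by rw [← hHf]; exact H.integrable)
    have h2 := congrFun h1 y
    rw [← hHf] at h2
    rw [← h2, Real.fourierInv_eq']
    refine integral_congr_ae (Eventually.of_forall fun ξ => ?_)
    simp only [smul_eq_mul]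
    congr 3
  have hcosint : ∀ y, Integrable fun ξ => Real.cos (2 * Real.pi * ξ * y) * (H ξ).re := by
    intro y
    refine Integrable.bdd_mul (c := 1) H.integrable.re (by fun_prop) ?_
    exact Eventually.of_forall fun ξ => by
      rw [Real.norm_eq_abs]; exact Real.abs_cos_le_one _
  have hsinint : ∀ y, Integrable fun ξ => Real.sin (2 * Real.pi * ξ * y) * (H ξ).im := by
    intro y
    refine Integrable.bdd_mul (c := 1) H.integrable.im (by fun_prop) ?_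
    exact Eventually.of_forall fun ξ => by
      rw [Real.norm_eq_abs]; exact Real.abs_sin_le_one _
  have hre : ∀ y, (G y).re = (∫ ξ, Real.cos (2 * Real.pi * ξ * y) * (H ξ).re) -
      ∫ ξ, Real.sin (2 * Real.pi * ξ * y) * (H ξ).im := by
    intro y
    rw [hinv y, ← integral_sub (hcosint y) (hsinint y)]
    have hint : Integrable fun ξ =>
        Complex.exp ((2 * Real.pi * (y * ξ) : ℝ) * Complex.I) * H ξ := by
      refine Integrable.bdd_mul (c := 1) H.integrable (by fun_prop) ?_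
      exact Eventually.of_forall fun ξ => by rw [Complex.norm_exp_ofReal_mul_I]
    rw [← Complex.reCLM_apply, ← ContinuousLinearMap.integral_comp_comm _ hint]
    refine integral_congr_ae (Eventually.of_forall fun ξ => ?_)
    simp only [Complex.reCLM_apply, Complex.mul_re, Complex.exp_ofReal_mul_I_re,
      Complex.exp_ofReal_mul_I_im]
    rw [show 2 * Real.pi * (y * ξ) = 2 * Real.pi * ξ * y by ring]
  have heven : ∀ y, (G y).re = ∫ ξ, Real.cos (2 * Real.pi * ξ * y) * (H ξ).re := by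
    intro y
    have h1 := hre y
    have h2 := hre (-y)
    have h3 : (G (-y)).re = (G y).re := by
      rw [hGg, hGg, hg]
      simp only [neg_sq, neg_neg, add_comm (τ (-y))]
    have h4 : (∫ ξ, Real.cos (2 * Real.pi * ξ * -y) * (H ξ).re) =
        ∫ ξ, Real.cos (2 * Real.pi * ξ * y) * (H ξ).re := by
      refine integral_congr_ae (Eventually.of_forall fun ξ => ?_)
      simp only [mul_neg, Real.cos_neg]
    have h5 : (∫ ξ, Real.sin (2 * Real.pi * ξ * -y) * (H ξ).im) =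
        -∫ ξ, Real.sin (2 * Real.pi * ξ * y) * (H ξ).im := by
      rw [← integral_neg]
      refine integral_congr_ae (Eventually.of_forall fun ξ => ?_)
      simp only [mul_neg, Real.sin_neg, neg_mul]
    rw [h3, h4, h5] at h2
    linarith
  have hrei : Integrable (fun ξ => (H ξ).re) := H.integrable.re
  have hzero : ∫ ξ, (H ξ).re = 0 := by
    have h1 := heven 0
    simp only [mul_zero, Real.cos_zero, one_mul] at h1
    rw [← h1, hGg, hg]
    simp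
  refine ⟨fun ξ => -(1 / 2) * (H ξ).re, by fun_prop, H.integrable.re.const_mul _, ?_, ?_⟩
  · have h1 := H.integrable_pow_mul volume 2
    refine h1.mono' (by fun_prop) (Eventually.of_forall fun ξ => ?_)
    rw [Real.norm_eq_abs, abs_mul, abs_abs, abs_mul, abs_of_nonneg (sq_nonneg ξ)]
    have h2 : |(H ξ).re| ≤ ‖H ξ‖ := Complex.abs_re_le_norm _
    have h3 : |-(1 / 2 : ℝ)| = 1 / 2 := by norm_num [abs_of_neg]
    rw [h3, Real.norm_eq_abs, sq_abs]
    have h4 : 0 ≤ ‖H ξ‖ := norm_nonneg _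
    nlinarith [sq_nonneg ξ, abs_nonneg (H ξ).re]
  · intro y hy
    have h1 := heven y
    have h2 : (G y).re = y ^ 2 * τ y := by
      rw [hGg, hg]
      simp only [Complex.ofReal_re]
      rw [hneg (-y) (by linarith), add_zero]
    rw [h2] at h1
    have h3 : ∫ ξ, -(1 / 2) * (H ξ).re * w (2 * Real.pi * ξ) y =
        (y ^ 2)⁻¹ * ((∫ ξ, Real.cos (2 * Real.pi * ξ * y) * (H ξ).re) - ∫ ξ, (H ξ).re) := by
      rw [← integral_sub (hcosint y) hrei, ← integral_const_mul]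
      refine integral_congr_ae (Eventually.of_forall fun ξ => ?_)
      simp only [w]
      field_simp
      ring
    rw [h3, hzero, sub_zero, ← h1]
    field_simp


/-- Fubini -/
lemma fub {ν : ℝ → ℝ → ℝ} {ρ : ℝ} (hc : ∀ T, Continuous (ν T)) (τ h : ℝ → ℝ) (hh : Integrable h)
    (hrep : ∀ y, 0 < y → τ y = ∫ ξ, h ξ * w (2 * Real.pi * ξ) y) (m : ℕ) (T : ℝ) :
    ∫ y in ((2 : ℝ) ^ m)⁻¹..2 ^ m, τ y * (ν T y - ρ) =
      ∫ ξ, h ξ * HT ν ρ m T (2 * Real.pi * ξ) := by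
  have hpm : (0 : ℝ) < ((2 : ℝ) ^ m)⁻¹ := by positivity
  have hle : ((2 : ℝ) ^ m)⁻¹ ≤ 2 ^ m := by
    have h1 : (1 : ℝ) ≤ 2 ^ m := one_le_pow₀ (by norm_num)
    exact le_trans (inv_le_one_of_one_le₀ h1) h1
  have hφ : ContinuousOn (fun y => (ν T y - ρ) / y ^ 2) (Ioi 0) :=
    (((hc T).sub continuous_const).continuousOn).div (by fun_prop)
      fun y hy => pow_ne_zero _ (ne_of_gt hy)
  have hφi : Integrable (fun y => (ν T y - ρ) / y ^ 2)
      (volume.restrict (Ioc ((2 : ℝ) ^ m)⁻¹ (2 ^ m))) := by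
    have := ii hφ hpm (show (0 : ℝ) < 2 ^ m by positivity)
    rwa [intervalIntegrable_iff_integrableOn_Ioc_of_le hle] at this
  have hprod : Integrable (fun z : ℝ × ℝ => ((ν T z.1 - ρ) / z.1 ^ 2) * h z.2)
      ((volume.restrict (Ioc ((2 : ℝ) ^ m)⁻¹ (2 ^ m))).prod volume) := hφi.mul_prod hh
  have hprod2 : Integrable (fun z : ℝ × ℝ => (2 - 2 * Real.cos (2 * Real.pi * z.2 * z.1)) *
      (((ν T z.1 - ρ) / z.1 ^ 2) * h z.2))
      ((volume.restrict (Ioc ((2 : ℝ) ^ m)⁻¹ (2 ^ m))).prod volume) := by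
    refine Integrable.bdd_mul (c := 4) hprod ?_ ?_
    · exact Continuous.aestronglyMeasurable (by fun_prop)
    · refine Eventually.of_forall fun z => ?_
      rw [Real.norm_eq_abs, abs_le]
      have h1 := Real.cos_le_one (2 * Real.pi * z.2 * z.1)
      have h2 := Real.neg_one_le_cos (2 * Real.pi * z.2 * z.1)
      constructor <;> linarith
  have hswap := integral_integral_swap
    (f := fun y ξ => (2 - 2 * Real.cos (2 * Real.pi * ξ * y)) *
      (((ν T y - ρ) / y ^ 2) * h ξ)) hprod2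
  rw [intervalIntegral.integral_of_le hle]
  have e1 : ∫ y in Ioc ((2 : ℝ) ^ m)⁻¹ (2 ^ m), τ y * (ν T y - ρ) =
      ∫ y in Ioc ((2 : ℝ) ^ m)⁻¹ (2 ^ m), ∫ ξ, (2 - 2 * Real.cos (2 * Real.pi * ξ * y)) *
      (((ν T y - ρ) / y ^ 2) * h ξ) := by
    refine setIntegral_congr_fun measurableSet_Ioc fun y hy => ?_
    have hy0 : 0 < y := lt_trans hpm hy.1
    change τ y * (ν T y - ρ) = _
    rw [hrep y hy0, ← integral_mul_const]
    refine integral_congr_ae (Eventually.of_forall fun ξ => ?_)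
    simp only [w]
    ring
  rw [e1, hswap]
  refine integral_congr_ae (Eventually.of_forall fun ξ => ?_)
  simp only
  unfold HT
  rw [intervalIntegral.integral_of_le hle, ← integral_const_mul]
  refine integral_congr_ae (Eventually.of_forall fun y => ?_)
  simp only [w]
  ring

lemma HT_meas {ν : ℝ → ℝ → ℝ} {ρ : ℝ} (hc : ∀ T, Continuous (ν T)) (m : ℕ) (T : ℝ) :
    Measurable fun ξ => HT ν ρ m T (2 * Real.pi * ξ) := by
  have hle : ((2 : ℝ) ^ m)⁻¹ ≤ 2 ^ m := by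
    have h1 : (1 : ℝ) ≤ 2 ^ m := one_le_pow₀ (by norm_num)
    exact le_trans (inv_le_one_of_one_le₀ h1) h1
  have h1 : StronglyMeasurable (Function.uncurry fun (ξ y : ℝ) =>
      w (2 * Real.pi * ξ) y * (ν T y - ρ)) := by
    refine Measurable.stronglyMeasurable ?_
    unfold w Function.uncurry
    have := (hc T).measurable
    fun_prop
  have h2 := h1.integral_prod_right (ν := volume.restrict (Ioc ((2 : ℝ) ^ m)⁻¹ (2 ^ m)))
  have h3 : (fun ξ => HT ν ρ m T (2 * Real.pi * ξ)) = fun ξ =>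
      ∫ y in Ioc ((2 : ℝ) ^ m)⁻¹ (2 ^ m), w (2 * Real.pi * ξ) y * (ν T y - ρ) := by
    funext ξ
    unfold HT
    rw [intervalIntegral.integral_of_le hle]
  rw [h3]
  exact h2.measurable

section
variable {ν : ℝ → ℝ → ℝ} {ρ C0 : ℝ} (hρ : 0 ≤ ρ) (hC0 : 0 ≤ C0) (hc : ∀ T, Continuous (ν T))
  (h0 : ∀ T y, 0 ≤ ν T y)
  (A0 : ∀ V : ℝ, 0 < V → ∀ᶠ T in atTop, ∫ y in V..(2 * V), ν T y ≤ C0 * V)
  (Aup : ∀ X : ℝ, 0 < X → ∀ y0 y1 : ℝ, 0 < y0 → y0 ≤ y1 → ∀ ε : ℝ, 0 < ε →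
    ∀ᶠ T in atTop, ∫ y in y0..y1, w X y * ν T y ≤ X * (Real.pi * ρ + ε))
  (Alow : ∀ ε : ℝ, 0 < ε → ∃ a b : ℝ, 0 < a ∧ a ≤ b ∧ ∀ X : ℝ, 0 < X →
    ∀ᶠ T in atTop, X * (Real.pi * ρ - ε) ≤ ∫ y in (a / X)..(b / X), w X y * ν T y)

include hρ hC0 hc h0 A0 Aup Alow in
/-- the part of the Fourier integral which exceeds the tails tends to zero -/
lemma excess (h : ℝ → ℝ) (hh : Integrable h) (m : ℕ) :
    Tendsto (fun T => ∫ ξ, |h ξ| * max (|HT ν ρ m T (2 * Real.pi * ξ)| -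
      (C0 + ρ) * ((2 * Real.pi * ξ) ^ 2 + 8) * ((2 : ℝ) ^ m)⁻¹) 0) atTop (𝓝 0) := by
  suffices key : Tendsto (fun T => ∫ ξ, |h ξ| * max (|HT ν ρ m T (2 * Real.pi * ξ)| -
      (C0 + ρ) * ((2 * Real.pi * ξ) ^ 2 + 8) * ((2 : ℝ) ^ m)⁻¹) 0) atTop
      (𝓝 (∫ _ : ℝ, (0 : ℝ))) by
    rwa [integral_zero] at key
  refine tendsto_integral_filter_of_dominated_convergence
    (fun ξ => |h ξ| * (4 * (2 ^ m) ^ 2 * (C0 * 2 ^ m + ρ * 2 ^ m))) ?_ ?_ ?_ ?_
  · refine Eventually.of_forall fun T => ?_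
    have h1 := HT_meas (ρ := ρ) hc m T
    have h2 : AEStronglyMeasurable (fun ξ => |h ξ|) volume := hh.abs.aestronglyMeasurable
    refine h2.mul (Measurable.aestronglyMeasurable ?_)
    fun_prop
  · filter_upwards [HT_bdd hρ hC0 hc h0 A0 m] with T hT
    refine Eventually.of_forall fun ξ => ?_
    rw [Real.norm_of_nonneg (mul_nonneg (abs_nonneg _) (le_max_right _ _))]
    refine mul_le_mul_of_nonneg_left (max_le ?_ (by positivity)) (abs_nonneg _)
    have h1 := hT (2 * Real.pi * ξ)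
    have h2 : 0 ≤ (C0 + ρ) * ((2 * Real.pi * ξ) ^ 2 + 8) * ((2 : ℝ) ^ m)⁻¹ := by positivity
    linarith
  · exact hh.abs.mul_const _
  · refine Eventually.of_forall fun ξ => ?_
    rw [Metric.tendsto_nhds]
    intro ε hε
    have hpos : 0 < ε / (2 * (|h ξ| + 1)) := by positivity
    filter_upwards [HT_all hρ hC0 hc h0 A0 Aup Alow (2 * Real.pi * ξ) m _ hpos] with T hT
    rw [dist_zero_right, Real.norm_of_nonneg (mul_nonneg (abs_nonneg _) (le_max_right _ _))]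
    have h1 : max (|HT ν ρ m T (2 * Real.pi * ξ)| -
      (C0 + ρ) * ((2 * Real.pi * ξ) ^ 2 + 8) * ((2 : ℝ) ^ m)⁻¹) 0 ≤ ε / (2 * (|h ξ| + 1)) :=
      max_le (by linarith) hpos.le
    calc |h ξ| * _ ≤ |h ξ| * (ε / (2 * (|h ξ| + 1))) :=
          mul_le_mul_of_nonneg_left h1 (abs_nonneg _)
      _ < ε := by
          rw [mul_div_assoc', div_lt_iff₀ (by positivity)]
          nlinarith [abs_nonneg (h ξ)]

include hρ hC0 hc h0 A0 Aup Alow in
lemma main_conv (τ : ℝ → ℝ) (hτ : ContDiff ℝ ∞ τ) (hcs : HasCompactSupport τ)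
    (hneg : ∀ y, y ≤ 1 / 4 → τ y = 0) (hbig : ∀ y, 4 ≤ y → τ y = 0) (ε : ℝ) (hε : 0 < ε) :
    ∀ᶠ T in atTop, |∫ y in (1 / 4 : ℝ)..4, τ y * (ν T y - ρ)| ≤ ε := by
  obtain ⟨h, hhc, hhi, hh2, hrep⟩ := rep τ hτ hcs fun y hy => hneg y (by linarith)
  -- the constant
  obtain ⟨K, hK⟩ : ∃ K : ℝ, K = ∫ ξ, |h ξ| * ((2 * Real.pi * ξ) ^ 2 + 8) := ⟨_, rfl⟩
  have hKi : Integrable fun ξ => |h ξ| * ((2 * Real.pi * ξ) ^ 2 + 8) := by
    have h1 : (fun ξ => |h ξ| * ((2 * Real.pi * ξ) ^ 2 + 8)) =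
        fun ξ => (2 * Real.pi) ^ 2 * (|h ξ| * ξ ^ 2) + 8 * |h ξ| := by
      funext ξ; ring
    rw [h1]
    exact (hh2.const_mul _).add (hhi.abs.const_mul _)
  have hK0 : 0 ≤ K := by
    rw [hK]
    exact integral_nonneg fun ξ => by positivity
  -- choice of `m`
  obtain ⟨m, hm2, hm⟩ : ∃ m : ℕ, 2 ≤ m ∧ (C0 + ρ) * K * ((2 : ℝ) ^ m)⁻¹ ≤ ε / 2 := by
    obtain ⟨n, hn⟩ := pow_unbounded_of_one_lt ((C0 + ρ) * K * (2 / ε)) (one_lt_two (α := ℝ))
    refine ⟨max 2 n, le_max_left _ _, ?_⟩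
    have h1 : (C0 + ρ) * K * (2 / ε) ≤ 2 ^ (max 2 n) :=
      le_trans hn.le (pow_le_pow_right₀ (by norm_num) (le_max_right _ _))
    rw [← div_eq_mul_inv, div_le_iff₀ (by positivity)]
    calc (C0 + ρ) * K = ε / 2 * ((C0 + ρ) * K * (2 / ε)) := by field_simp
      _ ≤ ε / 2 * 2 ^ (max 2 n) := mul_le_mul_of_nonneg_left h1 (by positivity)
  have hex := excess hρ hC0 hc h0 A0 Aup Alow h hhi m
  rw [Metric.tendsto_nhds] at hex
  filter_upwards [hex (ε / 2) (by positivity), HT_bdd hρ hC0 hc h0 A0 m] with T hT hbd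
  rw [dist_zero_right, Real.norm_eq_abs] at hT
  have hT' := (abs_lt.1 hT).2
  -- change of the interval
  have hpm : (0 : ℝ) < ((2 : ℝ) ^ m)⁻¹ := by positivity
  have h4 : (4 : ℝ) ≤ 2 ^ m := by
    calc (4 : ℝ) = 2 ^ 2 := by norm_num
      _ ≤ 2 ^ m := pow_le_pow_right₀ (by norm_num) hm2
  have h14 : ((2 : ℝ) ^ m)⁻¹ ≤ 1 / 4 := by
    rw [one_div]
    exact inv_anti₀ (by norm_num) h4
  have hcont : Continuous fun y => τ y * (ν T y - ρ) :=
    hτ.continuous.mul ((hc T).sub continuous_const)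
  have hI : ∫ y in (1 / 4 : ℝ)..4, τ y * (ν T y - ρ) =
      ∫ y in ((2 : ℝ) ^ m)⁻¹..2 ^ m, τ y * (ν T y - ρ) := by
    rw [split3 hcont.continuousOn hpm (show (0 : ℝ) < 1 / 4 by norm_num)
      (show (0 : ℝ) < 4 by norm_num) (show (0 : ℝ) < 2 ^ m by positivity)]
    have g1 : ∫ y in ((2 : ℝ) ^ m)⁻¹..(1 / 4), τ y * (ν T y - ρ) = 0 := by
      rw [intervalIntegral.integral_congr (g := fun _ => (0 : ℝ))]
      · simp
      · intro y hy
        rw [uIcc_of_le h14] at hy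
        simp [hneg y hy.2]
    have g2 : ∫ y in (4 : ℝ)..2 ^ m, τ y * (ν T y - ρ) = 0 := by
      rw [intervalIntegral.integral_congr (g := fun _ => (0 : ℝ))]
      · simp
      · intro y hy
        rw [uIcc_of_le h4] at hy
        simp [hbig y hy.1]
    rw [g1, g2]
    ring
  rw [hI, fub hc τ h hhi hrep m T]
  have hb : |∫ ξ, h ξ * HT ν ρ m T (2 * Real.pi * ξ)| ≤
      ∫ ξ, (|h ξ| * max (|HT ν ρ m T (2 * Real.pi * ξ)| -
        (C0 + ρ) * ((2 * Real.pi * ξ) ^ 2 + 8) * ((2 : ℝ) ^ m)⁻¹) 0 +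
        (C0 + ρ) * ((2 : ℝ) ^ m)⁻¹ * (|h ξ| * ((2 * Real.pi * ξ) ^ 2 + 8))) := by
    rw [← Real.norm_eq_abs]
    refine norm_integral_le_of_norm_le ?_ (Eventually.of_forall fun ξ => ?_)
    · refine Integrable.add ?_ (hKi.const_mul _)
      refine Integrable.mul_bdd (c := 4 * (2 ^ m) ^ 2 * (C0 * 2 ^ m + ρ * 2 ^ m)) hhi.abs ?_ ?_
      · have h1 := HT_meas (ρ := ρ) hc m T
        refine Measurable.aestronglyMeasurable ?_
        fun_prop
      · refine Eventually.of_forall fun ξ => ?_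
        rw [Real.norm_eq_abs, abs_of_nonneg (le_max_right _ _)]
        refine max_le ?_ (by positivity)
        have h1 := hbd (2 * Real.pi * ξ)
        have h2 : 0 ≤ (C0 + ρ) * ((2 * Real.pi * ξ) ^ 2 + 8) * ((2 : ℝ) ^ m)⁻¹ := by positivity
        linarith
    · rw [Real.norm_eq_abs, abs_mul]
      have h1 := le_max_left (|HT ν ρ m T (2 * Real.pi * ξ)| -
        (C0 + ρ) * ((2 * Real.pi * ξ) ^ 2 + 8) * ((2 : ℝ) ^ m)⁻¹) 0
      have h2 := mul_le_mul_of_nonneg_left h1 (abs_nonneg (h ξ))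
      linarith
  refine le_trans hb ?_
  rw [integral_add ?_ (hKi.const_mul _), integral_const_mul, ← hK]
  · have : (C0 + ρ) * ((2 : ℝ) ^ m)⁻¹ * K = (C0 + ρ) * K * ((2 : ℝ) ^ m)⁻¹ := by ring
    linarith
  · refine Integrable.mul_bdd (c := 4 * (2 ^ m) ^ 2 * (C0 * 2 ^ m + ρ * 2 ^ m)) hhi.abs ?_ ?_
    · have h1 := HT_meas (ρ := ρ) hc m T
      refine Measurable.aestronglyMeasurable ?_
      fun_prop
    · refine Eventually.of_forall fun ξ => ?_
      rw [Real.norm_eq_abs, abs_of_nonneg (le_max_right _ _)]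
      refine max_le ?_ (by positivity)
      have h1 := hbd (2 * Real.pi * ξ)
      have h2 : 0 ≤ (C0 + ρ) * ((2 * Real.pi * ξ) ^ 2 + 8) * ((2 : ℝ) ^ m)⁻¹ := by positivity
      linarith


include hρ hC0 hc h0 A0 Aup Alow in
lemma upper (δ : ℝ) (hδ : 0 < δ) (hδ2 : δ ≤ 1 / 4) (ε : ℝ) (hε : 0 < ε) :
    ∀ᶠ T in atTop, ∫ y in (1 : ℝ)..2, ν T y ≤ ρ * (1 + 2 * δ) + ε := by
  obtain ⟨τ, hτdef⟩ : ∃ τ : ContDiffBump (3 / 2 : ℝ), τ = ⟨1 / 2, 1 / 2 + δ, by norm_num,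
    by linarith⟩ := ⟨_, rfl⟩
  have hin : τ.rIn = 1 / 2 := by rw [hτdef]
  have hout : τ.rOut = 1 / 2 + δ := by rw [hτdef]
  have hz : ∀ y, 1 / 2 + δ ≤ |y - 3 / 2| → τ y = 0 := by
    intro y hy
    refine τ.zero_of_le_dist ?_
    rw [Real.dist_eq, hout]
    exact hy
  have h1 : ∀ y, |y - 3 / 2| ≤ 1 / 2 → τ y = 1 := by
    intro y hy
    refine τ.one_of_mem_closedBall ?_
    rw [Metric.mem_closedBall, Real.dist_eq, hin]
    exact hy
  have hconv := main_conv hρ hC0 hc h0 A0 Aup Alow τ (τ.contDiff) τ.hasCompactSupport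
    (fun y hy => hz y (by rw [le_abs]; right; linarith))
    (fun y hy => hz y (by rw [le_abs]; left; linarith)) ε hε
  filter_upwards [hconv] with T hT
  have hτi : ∀ a b : ℝ, IntervalIntegrable (fun y => τ y) volume a b := fun a b =>
    τ.continuous.intervalIntegrable a b
  have hτν : ∀ a b : ℝ, IntervalIntegrable (fun y => τ y * ν T y) volume a b := fun a b =>
    (τ.continuous.mul (hc T)).intervalIntegrable a b
  have e1 : ∫ y in (1 / 4 : ℝ)..4, τ y * (ν T y - ρ) =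
      (∫ y in (1 / 4 : ℝ)..4, τ y * ν T y) - ρ * ∫ y in (1 / 4 : ℝ)..4, τ y := by
    rw [← intervalIntegral.integral_const_mul, ← intervalIntegral.integral_sub (hτν _ _)
      ((hτi _ _).const_mul ρ)]
    refine intervalIntegral.integral_congr fun y _ => ?_
    ring
  have hT2 := (abs_le.1 hT).2
  rw [e1] at hT2
  -- the first integral
  have g0 : ∫ y in (1 : ℝ)..2, ν T y ≤ ∫ y in (1 / 4 : ℝ)..4, τ y * ν T y := by
    have hs := split3 (f := fun y => τ y * ν T y) (τ.continuous.mul (hc T)).continuousOn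
      (show (0 : ℝ) < 1 / 4 by norm_num) (show (0 : ℝ) < 1 by norm_num)
      (show (0 : ℝ) < 2 by norm_num) (show (0 : ℝ) < 4 by norm_num)
    rw [hs]
    have k1 : 0 ≤ ∫ y in (1 / 4 : ℝ)..1, τ y * ν T y :=
      intervalIntegral.integral_nonneg (by norm_num) fun y _ => mul_nonneg τ.nonneg (h0 T y)
    have k2 : 0 ≤ ∫ y in (2 : ℝ)..4, τ y * ν T y :=
      intervalIntegral.integral_nonneg (by norm_num) fun y _ => mul_nonneg τ.nonneg (h0 T y)
    have k3 : ∫ y in (1 : ℝ)..2, τ y * ν T y = ∫ y in (1 : ℝ)..2, ν T y := by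
      refine intervalIntegral.integral_congr fun y hy => ?_
      rw [uIcc_of_le (by norm_num)] at hy
      have : τ y = 1 := h1 y (by rw [abs_le]; constructor <;> linarith [hy.1, hy.2])
      simp only [this, one_mul]
    rw [k3]
    linarith
  -- the second
  have g1 : ∫ y in (1 / 4 : ℝ)..4, τ y ≤ 1 + 2 * δ := by
    have hs := split3 (f := fun y => τ y) τ.continuous.continuousOn
      (show (0 : ℝ) < 1 / 4 by norm_num) (show (0 : ℝ) < 1 - δ by linarith)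
      (show (0 : ℝ) < 2 + δ by linarith) (show (0 : ℝ) < 4 by norm_num)
    rw [hs]
    have k1 : ∫ y in (1 / 4 : ℝ)..(1 - δ), τ y = 0 := by
      rw [intervalIntegral.integral_congr (g := fun _ => (0 : ℝ))]
      · simp
      · intro y hy
        rw [uIcc_of_le (by linarith)] at hy
        exact hz y (by rw [le_abs]; right; linarith [hy.2])
    have k2 : ∫ y in (2 + δ : ℝ)..4, τ y = 0 := by
      rw [intervalIntegral.integral_congr (g := fun _ => (0 : ℝ))]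
      · simp
      · intro y hy
        rw [uIcc_of_le (by linarith)] at hy
        exact hz y (by rw [le_abs]; left; linarith [hy.1])
    have k3 : ∫ y in (1 - δ : ℝ)..(2 + δ), τ y ≤ ∫ y in (1 - δ : ℝ)..(2 + δ), (1 : ℝ) :=
      intervalIntegral.integral_mono_on (by linarith) (hτi _ _)
        (continuous_const.intervalIntegrable _ _) fun y _ => τ.le_one
    rw [intervalIntegral.integral_const, smul_eq_mul] at k3
    linarith
  have g2 := mul_le_mul_of_nonneg_left g1 hρ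
  linarith

include hρ hC0 hc h0 A0 Aup Alow in
lemma lower (δ : ℝ) (hδ : 0 < δ) (hδ2 : δ ≤ 1 / 4) (ε : ℝ) (hε : 0 < ε) :
    ∀ᶠ T in atTop, ρ * (1 - 2 * δ) - ε ≤ ∫ y in (1 : ℝ)..2, ν T y := by
  obtain ⟨τ, hτdef⟩ : ∃ τ : ContDiffBump (3 / 2 : ℝ), τ = ⟨1 / 2 - δ, 1 / 2, by linarith,
    by linarith⟩ := ⟨_, rfl⟩
  have hin : τ.rIn = 1 / 2 - δ := by rw [hτdef]
  have hout : τ.rOut = 1 / 2 := by rw [hτdef]
  have hz : ∀ y, 1 / 2 ≤ |y - 3 / 2| → τ y = 0 := by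
    intro y hy
    refine τ.zero_of_le_dist ?_
    rw [Real.dist_eq, hout]
    exact hy
  have h1 : ∀ y, |y - 3 / 2| ≤ 1 / 2 - δ → τ y = 1 := by
    intro y hy
    refine τ.one_of_mem_closedBall ?_
    rw [Metric.mem_closedBall, Real.dist_eq, hin]
    exact hy
  have hconv := main_conv hρ hC0 hc h0 A0 Aup Alow τ (τ.contDiff) τ.hasCompactSupport
    (fun y hy => hz y (by rw [le_abs]; right; linarith))
    (fun y hy => hz y (by rw [le_abs]; left; linarith)) ε hε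
  filter_upwards [hconv] with T hT
  have hτi : ∀ a b : ℝ, IntervalIntegrable (fun y => τ y) volume a b := fun a b =>
    τ.continuous.intervalIntegrable a b
  have hτν : ∀ a b : ℝ, IntervalIntegrable (fun y => τ y * ν T y) volume a b := fun a b =>
    (τ.continuous.mul (hc T)).intervalIntegrable a b
  have e1 : ∫ y in (1 / 4 : ℝ)..4, τ y * (ν T y - ρ) =
      (∫ y in (1 / 4 : ℝ)..4, τ y * ν T y) - ρ * ∫ y in (1 / 4 : ℝ)..4, τ y := by
    rw [← intervalIntegral.integral_const_mul, ← intervalIntegral.integral_sub (hτν _ _)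
      ((hτi _ _).const_mul ρ)]
    refine intervalIntegral.integral_congr fun y _ => ?_
    ring
  have hT2 := (abs_le.1 hT).1
  rw [e1] at hT2
  -- the first integral
  have g0 : ∫ y in (1 / 4 : ℝ)..4, τ y * ν T y ≤ ∫ y in (1 : ℝ)..2, ν T y := by
    have hs := split3 (f := fun y => τ y * ν T y) (τ.continuous.mul (hc T)).continuousOn
      (show (0 : ℝ) < 1 / 4 by norm_num) (show (0 : ℝ) < 1 by norm_num)
      (show (0 : ℝ) < 2 by norm_num) (show (0 : ℝ) < 4 by norm_num)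
    rw [hs]
    have k1 : ∫ y in (1 / 4 : ℝ)..1, τ y * ν T y = 0 := by
      rw [intervalIntegral.integral_congr (g := fun _ => (0 : ℝ))]
      · simp
      · intro y hy
        rw [uIcc_of_le (by norm_num)] at hy
        have : τ y = 0 := hz y (by rw [le_abs]; right; linarith [hy.2])
        simp only [this, zero_mul]
    have k2 : ∫ y in (2 : ℝ)..4, τ y * ν T y = 0 := by
      rw [intervalIntegral.integral_congr (g := fun _ => (0 : ℝ))]
      · simp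
      · intro y hy
        rw [uIcc_of_le (by norm_num)] at hy
        have : τ y = 0 := hz y (by rw [le_abs]; left; linarith [hy.1])
        simp only [this, zero_mul]
    have k3 : ∫ y in (1 : ℝ)..2, τ y * ν T y ≤ ∫ y in (1 : ℝ)..2, ν T y := by
      refine intervalIntegral.integral_mono_on (by norm_num) (hτν _ _)
        ((hc T).intervalIntegrable _ _) fun y _ => ?_
      have := mul_le_mul_of_nonneg_right (τ.le_one (x := y)) (h0 T y)
      linarith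
    linarith
  -- the second
  have g1 : 1 - 2 * δ ≤ ∫ y in (1 / 4 : ℝ)..4, τ y := by
    have hs := split3 (f := fun y => τ y) τ.continuous.continuousOn
      (show (0 : ℝ) < 1 / 4 by norm_num) (show (0 : ℝ) < 1 + δ by linarith)
      (show (0 : ℝ) < 2 - δ by linarith) (show (0 : ℝ) < 4 by norm_num)
    rw [hs]
    have k1 : 0 ≤ ∫ y in (1 / 4 : ℝ)..(1 + δ), τ y :=
      intervalIntegral.integral_nonneg (by linarith) fun y _ => τ.nonneg
    have k2 : 0 ≤ ∫ y in (2 - δ : ℝ)..4, τ y :=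
      intervalIntegral.integral_nonneg (by linarith) fun y _ => τ.nonneg
    have k3 : ∫ y in (1 + δ : ℝ)..(2 - δ), τ y = ∫ y in (1 + δ : ℝ)..(2 - δ), (1 : ℝ) := by
      refine intervalIntegral.integral_congr fun y hy => ?_
      rw [uIcc_of_le (by linarith)] at hy
      exact h1 y (by rw [abs_le]; constructor <;> linarith [hy.1, hy.2])
    rw [intervalIntegral.integral_const, smul_eq_mul] at k3
    rw [k3]
    linarith
  have g2 := mul_le_mul_of_nonneg_left g1 hρ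
  linarith

end

/-- **The Tauberian lemma.** -/
theorem tauber (ν : ℝ → ℝ → ℝ) (ρ C0 : ℝ) (hρ : 0 ≤ ρ) (hC0 : 0 ≤ C0)
    (hc : ∀ T, Continuous (ν T)) (h0 : ∀ T y, 0 ≤ ν T y)
    (A0 : ∀ V : ℝ, 0 < V → ∀ᶠ T in atTop, ∫ y in V..(2 * V), ν T y ≤ C0 * V)
    (Aup : ∀ X : ℝ, 0 < X → ∀ y0 y1 : ℝ, 0 < y0 → y0 ≤ y1 → ∀ ε : ℝ, 0 < ε →
      ∀ᶠ T in atTop, ∫ y in y0..y1, (2 - 2 * Real.cos (X * y)) / y ^ 2 * ν T y ≤
        X * (Real.pi * ρ + ε))
    (Alow : ∀ ε : ℝ, 0 < ε → ∃ a b : ℝ, 0 < a ∧ a ≤ b ∧ ∀ X : ℝ, 0 < X →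
      ∀ᶠ T in atTop, X * (Real.pi * ρ - ε) ≤
        ∫ y in (a / X)..(b / X), (2 - 2 * Real.cos (X * y)) / y ^ 2 * ν T y) :
    Tendsto (fun T => ∫ y in (1:ℝ)..2, ν T y) atTop (𝓝 ρ) := by
  rw [Metric.tendsto_nhds]
  intro ε hε
  obtain ⟨δ, hδ, hδ2, hδ3⟩ : ∃ δ : ℝ, 0 < δ ∧ δ ≤ 1 / 4 ∧ 2 * ρ * δ ≤ ε / 4 := by
    refine ⟨min (1 / 4) (ε / (8 * (ρ + 1))), lt_min (by norm_num) (by positivity),
      min_le_left _ _, ?_⟩
    have h1 : 2 * ρ * min (1 / 4) (ε / (8 * (ρ + 1))) ≤ 2 * ρ * (ε / (8 * (ρ + 1))) :=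
      mul_le_mul_of_nonneg_left (min_le_right _ _) (by positivity)
    refine le_trans h1 ?_
    rw [mul_div_assoc', div_le_div_iff₀ (by positivity) (by norm_num)]
    nlinarith
  filter_upwards [upper hρ hC0 hc h0 A0 Aup Alow δ hδ hδ2 (ε / 4) (by positivity),
    lower hρ hC0 hc h0 A0 Aup Alow δ hδ hδ2 (ε / 4) (by positivity)] with T h1 h2
  rw [Real.dist_eq, abs_lt]
  constructor <;> nlinarith

end Pool.Agent.L5helper30.PVTau
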