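import Pool.Agent.L5helper12.PV.RH

/-!
# The Riemann hypothesis from the mean square of the primes in short intervals (MP_2a816b_nt)
-/

set_option autoImplicit false

open Filter Topology Set MeasureTheory

namespace Pool.Agent.L5helper30.RHR

open Pool.Agent.L5helper10.TV Pool.Agent.L5helper12.PV

theorem rh_core (H : ∀ b : ℝ, 2 ≤ b → ∃ C : ℝ, 0 ≤ C ∧ ∀ P : ℝ → Prop, (∀ᶠ κ in 𝓝[>] (0 : ℝ), P κ) →
      ∃ κ, P κ ∧ ∫ v in (La κ)..(b * La κ), fk κ v ^ 2 ≤ C * (κ * La κ ^ 2)) :
    RiemannHypothesis := by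
  rw [W190.rh_free]
  intro s hs hz
  set θ : ℝ := (1 / 2 + s.re) / 2 with hθ
  have hθ1 : 1 / 2 < θ := by rw [hθ]; linarith
  have hθs : θ < s.re := by rw [hθ]; linarith
  set q : ℝ := θ - 1 / 2 with hq
  have hq0 : 0 < q := by rw [hq]; linarith
  set b : ℝ := 3 / q + 2 with hb
  have hb2 : 2 ≤ b := by
    have : 0 < 3 / q := by positivity
    rw [hb]; linarith
  have hqb : 3 ≤ q * b := by
    rw [hb, mul_add, mul_div_cancel₀ _ hq0.ne']
    linarith
  have hwin := W190.mangoldt_window (κ := 0) (θ := θ) (c := Real.exp 1 - 1) (δ := 1 / 2) le_rfl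
    (by linarith [Real.add_one_le_exp (1 : ℝ)]) (by norm_num) hθ1.le (by nlinarith [sq_nonneg (2 * θ - 1)]) ⟨s, hz, hθs⟩
  -- pull back along κ
  have htend : Tendsto (fun κ : ℝ => Real.exp (b * La κ - 1)) (𝓝[>] (0 : ℝ)) atTop := by
    apply Real.tendsto_exp_atTop.comp
    have h1 : Tendsto (fun κ : ℝ => b * La κ) (𝓝[>] (0 : ℝ)) atTop := La_tendsto.const_mul_atTop (by linarith)
    simpa [sub_eq_add_neg] using tendsto_atTop_add_const_right _ (-1) h1
  have hev := htend.eventually hwin
  obtain ⟨C, hC0, HC⟩ := H b hb2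
  have hpoly : ∀ᶠ L : ℝ in atTop, (b * L + 1) * ((500 * (1 + L) ^ 2 + C * L ^ 2) + 1) + 1 ≤ Real.exp (L / 2) := by
    have h1 : (fun L : ℝ => (b * L + 1) * ((500 * (1 + L) ^ 2 + C * L ^ 2) + 1) + 1) =o[atTop] fun L => Real.exp (L / 2) := by
      have e : (fun L : ℝ => (b * L + 1) * ((500 * (1 + L) ^ 2 + C * L ^ 2) + 1) + 1) = fun L =>
          (b * (500 + C)) * L ^ 3 + (1000 * b + 500 + C) * L ^ 2 + (501 * b + 1000) * L ^ 1 + 502 * L ^ 0 := by
        funext L; ring
      rw [e]
      have hp : ∀ k : ℕ, (fun L : ℝ => L ^ k) =o[atTop] fun L => Real.exp (L / 2) := by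
        intro k
        have := isLittleO_pow_exp_pos_mul_atTop k (show (0 : ℝ) < 1 / 2 by norm_num)
        refine this.congr_right fun L => ?_
        congr 1; ring
      exact ((((hp 3).const_mul_left _).add ((hp 2).const_mul_left _)).add ((hp 1).const_mul_left _)).add
        ((hp 0).const_mul_left _)
    have h2 := h1.bound (show (0 : ℝ) < 1 by norm_num)
    filter_upwards [h2] with L hL
    rw [one_mul, Real.norm_eq_abs, Real.norm_eq_abs, abs_of_pos (Real.exp_pos _)] at hL
    exact (le_abs_self _).trans hL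
  have hpκ := La_tendsto.eventually hpoly
  obtain ⟨κ, ⟨h1, h2, hκ1, hL, h5⟩, h3⟩ := HC _ (hev.and (hpκ.and (le_one_ev2.and
    ((La_ge (4 + 4 * (1 + θ))).and self_mem_nhdsWithin))))
  have hκ : 0 < κ := h5
  have hθ1' : θ < 1 := hθs.trans (W190.zero_FF hz).2
  obtain ⟨L, hLdef⟩ : ∃ L, L = La κ := ⟨_, rfl⟩
  rw [← hLdef] at h1 h2 h3 hL
  have hL8 : 8 ≤ L := by linarith
  have hbL : 16 ≤ b * L := by nlinarith
  have hPdeg : ((Polynomial.X : Polynomial ℝ).natDegree : ℝ) ≤ Real.log (Real.exp (b * L - 1)) ^ (1 / 2 : ℝ) := by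
    rw [Polynomial.natDegree_X, Real.log_exp]
    push_cast
    exact Real.one_le_rpow (by linarith) (by norm_num)
  have h6 := h1 Polynomial.X hPdeg
  have hwinE : Real.exp (b * L - 1) + (Real.exp 1 - 1) * Real.exp (b * L - 1) /
      Real.log (Real.exp (b * L - 1)) ^ (0 : ℝ) = Real.exp (b * L - 1 + 1) := by
    rw [Real.rpow_zero, div_one, Real.exp_add]; ring
  rw [hwinE, W190.exp_change _ (by linarith)] at h6
  have h7 : ∫ v in Ioc (b * L - 1) (b * L - 1 + 1), Real.exp v *
      |W190.SF (fun n => ArithmeticFunction.vonMangoldt n) (Real.exp v) - (Polynomial.X : Polynomial ℝ).eval (Real.exp v)| =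
      ∫ v in Ioc (b * L - 1) (b * L - 1 + 1), Real.exp v * |Chebyshev.psi (Real.exp v) - Real.exp v| := by
    congr 1
    funext v
    rw [W190.SF_psi, Polynomial.eval_X]
  rw [h7] at h6
  -- the mean square
  have hM : ∫ v in Iic (b * L - 1 + 1), fk κ v ^ 2 ≤ κ * (500 * (1 + L) ^ 2 + C * L ^ 2) := by
    rw [show b * L - 1 + 1 = b * L by ring]
    have hLb : L ≤ b * L := by nlinarith
    have hfi : ∀ B, IntegrableOn (fun v => fk κ v ^ 2) (Iic B) := by
      intro B
      have := fk_wt_int κ 1 0 B B hκ hκ1 zero_le_one le_rfl le_rfl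
      simpa using this
    have hsp : ∫ v in Iic (b * L), fk κ v ^ 2 = (∫ v in Iic L, fk κ v ^ 2) + ∫ v in L..(b * L), fk κ v ^ 2 := by
      have hdis : Disjoint (Iic L) (Ioc L (b * L)) := Set.disjoint_left.2 fun x hx hx2 => not_lt.2 hx hx2.1
      rw [intervalIntegral.integral_of_le hLb, ← setIntegral_union hdis measurableSet_Ioc (hfi L)
        ((hfi (b * L)).mono_set fun v hv => hv.2), Iic_union_Ioc_eq_Iic hLb]
    have hcr := crude κ L hκ hκ1 (by linarith) hLdef.le
    rw [hsp]
    nlinarith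
  have h8 := l1_bound κ (b * L - 1) _ hκ hκ1 (by linarith) (by positivity) hM
  rw [← hLdef, show b * L - 1 + 1 = b * L by ring, show b * L - 1 + 2 = b * L + 1 by ring] at h8
  rw [show b * L - 1 + 1 = b * L by ring] at h6
  have h9 := h6.trans_le h8
  -- contradiction
  have hlow : Real.exp ((3 / 2 * b + 1) * L) ≤ Real.exp (b * L - 1) ^ (1 + θ) := by
    rw [← Real.exp_mul]
    apply Real.exp_le_exp.2
    have : θ = q + 1 / 2 := by rw [hq]; ring
    rw [this] at hL ⊢
    nlinarith
  have hup : Real.exp (3 / 2 * (b * L)) * ((b * L + 1) * ((500 * (1 + L) ^ 2 + C * L ^ 2) + 1) * Real.exp (L / 2)) +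
      Real.exp (b * L) ≤ Real.exp ((3 / 2 * b + 1) * L) := by
    have e1 : Real.exp ((3 / 2 * b + 1) * L) = Real.exp (3 / 2 * (b * L)) * (Real.exp (L / 2) * Real.exp (L / 2)) := by
      rw [← Real.exp_add, ← Real.exp_add]; congr 1; ring
    have e2 : Real.exp (b * L) ≤ Real.exp (3 / 2 * (b * L)) * Real.exp (L / 2) := by
      rw [← Real.exp_add]
      apply Real.exp_le_exp.2
      linarith
    rw [e1]
    have e3 := mul_le_mul_of_nonneg_right h2 (by positivity : 0 ≤ Real.exp (3 / 2 * (b * L)) * Real.exp (L / 2))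
    linarith
  linarith

/-- a good `κ` in the window -/
theorem good (b : ℝ) (hb : 2 ≤ b) (h : ∀ᶠ T in atTop, ∫ α in (1 : ℝ)..(b + 1), RT T α ≤ b + 1) :
    ∀ᶠ T in atTop, ∃ κ ∈ Ioo ((11 / 10 : ℝ) / T) (2 / T),
      ∫ v in (La κ)..(b * La κ), fk κ v ^ 2 ≤ 100 * (b + 1) * (κ * La κ ^ 2) := by
  filter_upwards [h, eventually_gt_atTop 1, eventually_ge_atTop 4,
    lift_ev (cosh_le_ev (11 / 10) (by norm_num)) (11 / 10) 2 (by norm_num),
    eventually_ge_atTop (Real.exp (2 * Real.log 4))] with T hR hT hT4 hcosh hTe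
  by_contra hcon
  push Not at hcon
  have hT0 : 0 < T := by linarith
  have hL : 0 < Real.log T := Real.log_pos hT
  have hQT : 2 / T ≤ 1 / 2 := by
    rw [div_le_iff₀ hT0]; linarith
  have hlog4 : 0 < Real.log 4 := Real.log_pos (by norm_num)
  have hLT : 2 * Real.log 4 ≤ Real.log T := by
    rw [Real.le_log_iff_exp_le hT0]; exact hTe
  have hlog2 : Real.log 2 ≤ Real.log 4 := Real.log_le_log (by norm_num) (by norm_num)
  obtain ⟨w, hw⟩ : ∃ w : ℝ → ℝ, w = (Iic (b + 1)).indicator 1 := ⟨_, rfl⟩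
  have hwm : Measurable w := by
    rw [hw]
    exact measurable_one.indicator measurableSet_Iic
  have hw0 : ∀ α, 0 ≤ w α := by
    intro α
    rw [hw]
    exact Set.indicator_nonneg (fun _ _ => zero_le_one) _
  have hw1 : ∀ α, α ≤ b + 1 → w α = 1 := by
    intro α hα
    rw [hw, Set.indicator_of_mem (by exact hα)]
    rfl
  have hwz : ∀ α, b + 1 < α → w α = 0 := by
    intro α hα
    rw [hw, Set.indicator_of_notMem (by simpa using hα)]
  have hwB : ∀ α, w α ≤ 1 := by
    intro α
    rcases le_or_gt α (b + 1) with h | h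
    · rw [hw1 α h]
    · rw [hwz α h]; norm_num
  obtain ⟨G, hG⟩ : ∃ G : ℝ → ℝ, G = fun v => Real.log T * w (v / Real.log T) := ⟨_, rfl⟩
  have hGm : Measurable G := by
    rw [hG]
    exact (hwm.comp (measurable_id.div_const _)).const_mul _
  have hG0 : ∀ v, 0 ≤ G v := by
    intro v
    rw [hG]
    exact mul_nonneg hL.le (hw0 _)
  have hGw : ∀ α, 1 < α → G (α * Real.log T) = Real.log T * w α := by
    intro α _
    rw [hG]
    simp only
    rw [mul_div_assoc, div_self hL.ne', mul_one]
  have hm := master T (11 / 10) 2 2 (100 * (b + 1) / 4) (b + 1) 1 w G hT (by norm_num) (by norm_num)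
    hQT hcosh (by norm_num) (fun κ hκ => by
      obtain ⟨g1, g2, -⟩ := geo T (11 / 10) 2 κ hT.le (by norm_num) hQT hκ
      exact sinh_half_le κ g1.le g2) hGm hG0 (by linarith) hwm hw0 hwB hwz hGw (by positivity)
    (fun κ hκ => by
      obtain ⟨g1, g2, g3, g4, g5, g6, g7⟩ := geo T (11 / 10) 2 κ hT.le (by norm_num) hQT hκ
      have hG2m : Measurable (fun v => G (v + ss T κ)) := hGm.comp (measurable_id.add_const _)
      have hint : Integrable (fun v => fk κ v ^ 2 * G (v + ss T κ)) := by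
        refine fkG_int κ g1.le g2 _ hG2m (fun v => hG0 _) (Real.log T)
          ((b + 1) * Real.log T - ss T κ) ?_ ?_
        · intro v
          rw [hG]
          have := mul_le_mul_of_nonneg_left (hwB ((v + ss T κ) / Real.log T)) hL.le
          simpa using this
        · intro v hv
          rw [hG]
          simp only
          rw [hwz, mul_zero]
          rw [lt_div_iff₀ hL]
          linarith
      refine ⟨hint.integrableOn, ?_⟩
      have hLa2 : Real.log T / 2 ≤ La κ := by linarith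
      have hLa0 : 0 < La κ := by linarith
      have hLab : La κ ≤ b * La κ := by nlinarith
      have h1 : ∫ v in (La κ)..(b * La κ), fk κ v ^ 2 * Real.log T ≤
          ∫ v in Ioi (La κ), fk κ v ^ 2 * G (v + ss T κ) := by
        rw [intervalIntegral.integral_of_le hLab]
        have h2 : ∫ v in Ioc (La κ) (b * La κ), fk κ v ^ 2 * Real.log T =
            ∫ v in Ioc (La κ) (b * La κ), fk κ v ^ 2 * G (v + ss T κ) := by
          refine setIntegral_congr_fun measurableSet_Ioc fun v hv => ?_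
          have h3 : (v + ss T κ) / Real.log T ≤ b + 1 := by
            rw [div_le_iff₀ hL]
            have h4 : v ≤ b * Real.log T := hv.2.trans (mul_le_mul_of_nonneg_left g3 (by linarith))
            have h5 : ss T κ ≤ Real.log 4 := by
              have e : (2 : ℝ) * 2 = 4 := by norm_num
              rw [e] at g6
              exact g6
            nlinarith
          rw [hG]
          simp only
          rw [hw1 _ h3, mul_one]
        rw [h2]
        exact setIntegral_mono_set hint.integrableOn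
          (Eventually.of_forall fun v => mul_nonneg (sq_nonneg _) (hG0 _))
          (LE.le.eventuallyLE Ioc_subset_Ioi_self)
      rw [intervalIntegral.integral_mul_const] at h1
      refine le_trans ?_ h1
      have h6 := mul_le_mul_of_nonneg_right (hcon κ hκ).le hL.le
      refine le_trans ?_ h6
      have h7 : (Real.log T / 2) ^ 2 ≤ La κ ^ 2 := pow_le_pow_left₀ (by positivity) hLa2 2
      have h8 : 0 ≤ 100 * (b + 1) * κ * Real.log T := by positivity
      calc 100 * (b + 1) / 4 * κ * Real.log T ^ 3 =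
            100 * (b + 1) * κ * Real.log T * (Real.log T / 2) ^ 2 := by ring
        _ ≤ 100 * (b + 1) * κ * Real.log T * La κ ^ 2 := mul_le_mul_of_nonneg_left h7 h8
        _ = 100 * (b + 1) * (κ * La κ ^ 2) * Real.log T := by ring)
  have h9 : ∫ α in (1 : ℝ)..(b + 1), w α * RT T α = ∫ α in (1 : ℝ)..(b + 1), RT T α := by
    refine intervalIntegral.integral_congr fun α hα => ?_
    rw [uIcc_of_le (by linarith)] at hα
    show w α * RT T α = RT T α
    rw [hw1 α hα.2, one_mul]
  rw [h9] at hm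
  have h10 := hm.trans hR
  norm_num at h10
  nlinarith

/-- **The Riemann hypothesis** follows from the upper half of the mean square asymptotics. -/
theorem rh_of_R (h : ∀ a b ε : ℝ, 1 ≤ a → a < b → 0 < ε →
    ∀ᶠ T in atTop, ∫ α in a..b, Pool.Agent.L5helper10.TV.RT T α ≤ b - a + ε) :
    RiemannHypothesis := by
  refine rh_core fun b hb => ⟨100 * (b + 1), by positivity, fun P hP => ?_⟩
  have h1 := good b hb (by
    filter_upwards [h 1 (b + 1) 1 le_rfl (by linarith) one_pos] with T hT
    linarith)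
  obtain ⟨T, ⟨κ, hκ, hκ2⟩, h2⟩ := (h1.and (lift_ev hP (11 / 10) 2 (by norm_num))).exists
  exact ⟨κ, h2 κ hκ, hκ2⟩

end Pool.Agent.L5helper30.RHR
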