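import Pool.Agent.L5helper31.TG.Defs2

/-!
# The rays of the fan of `P^1 × P^(n-1)` are determined by the polytope
-/

set_option autoImplicit false

open Finset

namespace Pool.Agent.L5helper31.TG

namespace Rays

theorem dot_neg' {n : ℕ} (l : Fin n → ℤ) (x : Fin n → ℝ) : dot (-l) x = -dot l x := by
  unfold dot
  rw [← Finset.sum_neg_distrib]
  refine Finset.sum_congr rfl fun i _ => ?_
  simp

theorem dot_comb {n : ℕ} {ι : Type} (s : Finset ι) (c : ι → ℤ) (M : ι → Fin n → ℤ)
    (x : Fin n → ℝ) : dot (∑ a ∈ s, c a • M a) x = ∑ a ∈ s, (c a : ℝ) * dot (M a) x := by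
  unfold dot
  simp_rw [Finset.mul_sum]
  rw [Finset.sum_comm]
  refine Finset.sum_congr rfl fun i _ => ?_
  rw [Finset.sum_apply]
  push_cast
  rw [Finset.sum_mul]
  refine Finset.sum_congr rfl fun a _ => ?_
  simp only [Pi.smul_apply, smul_eq_mul]
  push_cast
  ring

theorem dot_sum' {n : ℕ} {ι : Type} (s : Finset ι) (M : ι → Fin n → ℤ) (x : Fin n → ℝ) :
    dot (∑ a ∈ s, M a) x = ∑ a ∈ s, dot (M a) x := by
  have h := dot_comb s (fun _ => 1) M x
  simpa using h

variable {n : ℕ} (M : Fin n → (Fin n → ℤ)) (hd : |(Matrix.of M).det| = 1)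

include hd

theorem solve (y : Fin n → ℝ) : ∃ x : Fin n → ℝ, ∀ i, dot (M i) x = y i := by
  set A : Matrix (Fin n) (Fin n) ℝ := (Matrix.of M).map (Int.castRingHom ℝ) with hA
  have hdet : A.det = ((Matrix.of M).det : ℝ) := by
    rw [hA, ← RingHom.mapMatrix_apply, ← RingHom.map_det]
    rfl
  have h0 : IsUnit A.det := by
    rw [isUnit_iff_ne_zero, hdet]
    intro h
    have h' : (Matrix.of M).det = 0 := by exact_mod_cast h
    rw [h'] at hd
    simp at hd
  refine ⟨A⁻¹.mulVec y, fun i => ?_⟩
  have h1 : A.mulVec (A⁻¹.mulVec y) = y := by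
    rw [Matrix.mulVec_mulVec, Matrix.mul_nonsing_inv _ h0, Matrix.one_mulVec]
  have h2 := congrFun h1 i
  rw [← h2]
  rfl

theorem comb (l : Fin n → ℤ) : ∃ c : Fin n → ℤ, l = ∑ i, c i • M i := by
  have h0 : IsUnit (Matrix.of M).det := by
    rw [Int.isUnit_iff]
    rcases abs_eq (by norm_num : (0 : ℤ) ≤ 1) |>.1 hd with h | h
    · exact Or.inl h
    · exact Or.inr h
  refine ⟨Matrix.vecMul l (Matrix.of M)⁻¹, ?_⟩
  have h1 : Matrix.vecMul (Matrix.vecMul l (Matrix.of M)⁻¹) (Matrix.of M) = l := by
    rw [Matrix.vecMul_vecMul, Matrix.nonsing_inv_mul _ h0, Matrix.vecMul_one]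
  rw [Matrix.vecMul_eq_sum] at h1
  exact h1.symm

omit hd in
theorem mem_polytope_prod (j : Fin n) (x : Fin n → ℝ) :
    x ∈ polytope (prodL M j) ↔ (∀ i, -1 ≤ dot (M i) x) ∧ dot (M j) x ≤ 1 ∧
      ∑ i ∈ univ.erase j, dot (M i) x ≤ 1 := by
  unfold polytope prodL
  simp only [Set.mem_setOf_eq, mem_insert, mem_image, mem_univ, true_and, forall_eq_or_imp,
    forall_exists_index, forall_apply_eq_imp_iff]
  rw [dot_neg', dot_neg', dot_sum']
  constructor
  · rintro ⟨h1, h2, h3⟩
    exact ⟨h3, by linarith, by linarith⟩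
  · rintro ⟨h3, h1, h2⟩
    exact ⟨by linarith, by linarith, h3⟩

end Rays

open Rays

theorem prod_rays {n : ℕ} (hn : 2 ≤ n) (M : Fin n → (Fin n → ℤ)) (hd : |(Matrix.of M).det| = 1)
    (j : Fin n) (L : Finset (Fin n → ℤ)) (h0 : (0 : Fin n → ℤ) ∉ L)
    (h : polytope L = polytope (prodL M j)) : L = prodL M j := by
  have hsub : L ⊆ prodL M j := by
    intro l hl
    obtain ⟨c, hc⟩ := comb M hd l
    have hP : ∀ y : Fin n → ℝ, (∀ i, -1 ≤ y i) → y j ≤ 1 → ∑ i ∈ univ.erase j, y i ≤ 1 →
        -1 ≤ ∑ i, (c i : ℝ) * y i := by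
      intro y h1 h2 h3
      obtain ⟨x, hx⟩ := solve M hd y
      have h4 : x ∈ polytope (prodL M j) := by
        rw [mem_polytope_prod]
        simp only [hx]
        exact ⟨h1, h2, h3⟩
      rw [← h] at h4
      have h5 := h4 l hl
      rw [hc, dot_comb] at h5
      simpa only [hx] using h5
    have hsplit : ∀ y : Fin n → ℝ, ∑ i, (c i : ℝ) * y i =
        (c j : ℝ) * y j + ∑ i ∈ univ.erase j, (c i : ℝ) * y i := fun y =>
      (Finset.add_sum_erase univ (fun i => (c i : ℝ) * y i) (mem_univ j)).symm
    have hcard : ((univ.erase j : Finset (Fin n)).card : ℝ) = (n : ℝ) - 1 := by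
      rw [card_erase_of_mem (mem_univ j), card_univ, Fintype.card_fin, Nat.cast_sub (by omega)]
      simp
    set s : ℤ := ∑ i ∈ univ.erase j, c i with hs
    have hn' : (2 : ℝ) ≤ n := by exact_mod_cast hn
    -- first test points
    have H1 : ∀ e : ℤ, (e = 1 ∨ e = -1) → s - e * c j ≤ 1 := by
      intro e he
      have he' : (-1 : ℝ) ≤ e ∧ (e : ℝ) ≤ 1 := by
        rcases he with rfl | rfl <;> norm_num
      have h1 := hP (fun i => if i = j then (e : ℝ) else -1)
        (fun i => by split_ifs; exacts [he'.1, le_rfl]) (by simpa using he'.2)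
        (by
          rw [Finset.sum_congr rfl (g := fun _ => (-1 : ℝ))
            (fun i hi => if_neg (ne_of_mem_erase hi))]
          rw [Finset.sum_const, nsmul_eq_mul, hcard]
          linarith)
      rw [hsplit, Finset.sum_congr rfl (g := fun i => -(c i : ℝ))
        (fun i hi => by rw [if_neg (ne_of_mem_erase hi)]; ring), if_pos rfl,
        Finset.sum_neg_distrib] at h1
      have h2 : (s : ℝ) - e * c j ≤ 1 := by
        rw [hs]
        push_cast
        linarith
      exact_mod_cast h2
    -- second test points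
    have H2 : ∀ k, k ≠ j → ∀ e : ℤ, (e = 1 ∨ e = -1) → s - e * c j - n * c k ≤ 1 := by
      intro k hk e he
      have he' : (-1 : ℝ) ≤ e ∧ (e : ℝ) ≤ 1 := by
        rcases he with rfl | rfl <;> norm_num
      have hkm : k ∈ univ.erase j := mem_erase.2 ⟨hk, mem_univ k⟩
      have hy : ∀ i ∈ univ.erase j, (if i = j then (e : ℝ) else if i = k then (n : ℝ) - 1 else -1) =
          -1 + if i = k then (n : ℝ) else 0 := by
        intro i hi
        rw [if_neg (ne_of_mem_erase hi)]
        split_ifs <;> ring
      have h1 := hP (fun i => if i = j then (e : ℝ) else if i = k then (n : ℝ) - 1 else -1)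
        (fun i => by split_ifs; exacts [he'.1, by linarith, le_rfl])
        (by simpa using he'.2)
        (by
          rw [Finset.sum_congr rfl hy, Finset.sum_add_distrib, Finset.sum_const, nsmul_eq_mul,
            hcard, Finset.sum_ite_eq' (univ.erase j) k, if_pos hkm]
          linarith)
      rw [hsplit, Finset.sum_congr rfl (g := fun i => -(c i : ℝ) + if i = k then (c i : ℝ) * n else 0)
        (fun i hi => by
          rw [hy i hi]
          split_ifs <;> ring), if_pos rfl, Finset.sum_add_distrib,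
        Finset.sum_neg_distrib, Finset.sum_ite_eq' (univ.erase j) k, if_pos hkm] at h1
      have h2 : (s : ℝ) - e * c j - n * c k ≤ 1 := by
        rw [hs]
        push_cast
        linarith
      exact_mod_cast h2
    -- the form of l
    have hl0 : l ≠ 0 := fun h' => h0 (h' ▸ hl)
    have hlsplit : l = c j • M j + ∑ i ∈ univ.erase j, c i • M i := by
      rw [hc]
      exact (Finset.add_sum_erase univ (fun i => c i • M i) (mem_univ j)).symm
    have e1 := H1 1 (Or.inl rfl)
    have e2 := H1 (-1) (Or.inr rfl)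
    unfold prodL
    simp only [mem_insert, mem_image, mem_univ, true_and]
    by_cases hneg : ∃ k ∈ univ.erase j, c k < 0
    · -- a negative coefficient: the minimal one
      obtain ⟨k, hk, hkmin⟩ := Finset.exists_min_image (univ.erase j) c
        ⟨hneg.choose, hneg.choose_spec.1⟩
      have hkneg : c k < 0 := lt_of_le_of_lt (hkmin _ hneg.choose_spec.1) hneg.choose_spec.2
      have f1 := H2 k (ne_of_mem_erase hk) 1 (Or.inl rfl)
      have f2 := H2 k (ne_of_mem_erase hk) (-1) (Or.inr rfl)
      have hcard' : ((univ.erase j : Finset (Fin n)).card : ℤ) = (n : ℤ) - 1 := by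
        rw [card_erase_of_mem (mem_univ j), card_univ, Fintype.card_fin, Nat.cast_sub (by omega)]
        simp
      have hsum : ∑ i ∈ univ.erase j, (c i - c k) = s - (n - 1) * c k := by
        rw [Finset.sum_sub_distrib, Finset.sum_const, nsmul_eq_mul, hcard']
      have hnn : 0 ≤ ∑ i ∈ univ.erase j, (c i - c k) :=
        Finset.sum_nonneg fun i hi => sub_nonneg.2 (hkmin i hi)
      have g1 : c k = -1 := by nlinarith
      have g2 : c j = 0 := by
        rw [g1] at hsum f1 f2
        have : s + (n : ℤ) = 1 + ∑ i ∈ univ.erase j, (c i - -1) := by linarith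
        rw [g1] at hnn
        have a1 : s - c j + n ≤ 1 := by linarith
        have a2 : s + c j + n ≤ 1 := by linarith
        have : 0 ≤ c j := by linarith
        have : c j ≤ 0 := by linarith
        omega
      have g3 : ∑ i ∈ univ.erase j, (c i - c k) = 0 := by
        apply le_antisymm _ hnn
        rw [hsum, g1]
        rw [g1, g2] at f1
        linarith
      have g4 : ∀ i ∈ univ.erase j, c i = -1 := by
        intro i hi
        have := (Finset.sum_eq_zero_iff_of_nonneg fun i hi => sub_nonneg.2 (hkmin i hi)).1 g3 i hi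
        rw [g1] at this
        linarith
      right; left
      rw [hlsplit, g2, zero_smul, zero_add, ← Finset.sum_neg_distrib]
      refine Finset.sum_congr rfl fun i hi => ?_
      rw [g4 i hi, neg_one_zsmul]
    · push Not at hneg
      have hs0 : 0 ≤ s := Finset.sum_nonneg hneg
      by_cases hcj : c j = 0
      · by_cases hex : ∃ k ∈ univ.erase j, c k ≠ 0
        · obtain ⟨k, hk, hck⟩ := hex
          have h1 : s = c k + ∑ i ∈ (univ.erase j).erase k, c i :=
            (Finset.add_sum_erase (univ.erase j) c hk).symm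
          have h2 : 0 ≤ ∑ i ∈ (univ.erase j).erase k, c i :=
            Finset.sum_nonneg fun i hi => hneg i (mem_of_mem_erase hi)
          have h3 : 0 ≤ c k := hneg k hk
          have h4 : c k = 1 := by
            have : 0 < c k := lt_of_le_of_ne h3 (Ne.symm hck)
            rw [hcj] at e1
            omega
          have h5 : ∑ i ∈ (univ.erase j).erase k, c i = 0 := by
            rw [hcj] at e1
            omega
          have h6 := (Finset.sum_eq_zero_iff_of_nonneg
            fun i hi => hneg i (mem_of_mem_erase hi)).1 h5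
          right; right
          refine ⟨k, ?_⟩
          rw [hlsplit, hcj, zero_smul, zero_add,
            ← Finset.add_sum_erase (univ.erase j) (fun i => c i • M i) hk, h4, one_smul,
            Finset.sum_eq_zero fun i hi => by rw [h6 i hi, zero_smul], add_zero]
        · push Not at hex
          exfalso
          apply hl0
          rw [hlsplit, hcj, zero_smul, zero_add]
          exact Finset.sum_eq_zero fun i hi => by rw [hex i hi, zero_smul]
      · have h1 : s = 0 ∧ (c j = 1 ∨ c j = -1) := by omega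
        have h2 := (Finset.sum_eq_zero_iff_of_nonneg hneg).1 h1.1
        have h3 : ∑ i ∈ univ.erase j, c i • M i = 0 :=
          Finset.sum_eq_zero fun i hi => by rw [h2 i hi, zero_smul]
        rcases h1.2 with h4 | h4
        · right; right
          refine ⟨j, ?_⟩
          rw [hlsplit, h3, h4, one_smul, add_zero]
        · left
          rw [hlsplit, h3, h4, neg_one_zsmul, add_zero]
  refine Finset.Subset.antisymm hsub ?_
  -- a missing vector would enlarge the polytope
  have key : ∀ v ∈ prodL M j, ∀ x : Fin n → ℝ, dot v x < -1 →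
      (∀ w ∈ prodL M j, w ≠ v → -1 ≤ dot w x) → v ∈ L := by
    intro v hv x h1 h2
    by_contra hvL
    have h3 : x ∈ polytope L := fun w hw =>
      h2 w (hsub hw) (fun h' => hvL (h' ▸ hw))
    rw [h] at h3
    exact absurd (h3 v hv) (not_le.2 h1)
  -- points with one nonzero coordinate
  have pt : ∀ (k : Fin n) (t : ℝ), ∃ x : Fin n → ℝ, dot (M k) x = t ∧
      (∀ i, i ≠ k → dot (M i) x = 0) ∧
      (k = j → ∑ i ∈ univ.erase j, dot (M i) x = 0) ∧
      (k ≠ j → ∑ i ∈ univ.erase j, dot (M i) x = t) := by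
    intro k t
    obtain ⟨x, hx⟩ := solve M hd (Pi.single k t)
    refine ⟨x, by rw [hx]; simp, fun i hi => by rw [hx]; simp [hi], fun hkj => ?_, fun hkj => ?_⟩
    · refine Finset.sum_eq_zero fun i hi => ?_
      rw [hx, Pi.single_apply, if_neg]
      rw [hkj]
      exact ne_of_mem_erase hi
    · simp only [hx, Pi.single_apply]
      rw [Finset.sum_ite_eq' (univ.erase j) k, if_pos (mem_erase.2 ⟨hkj, mem_univ k⟩)]
  intro v hv
  have hv' := hv
  unfold prodL at hv'
  simp only [mem_insert, mem_image, mem_univ, true_and] at hv'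
  have hall : ∀ (x : Fin n → ℝ) (v : Fin n → ℤ), (-M j ≠ v → -1 ≤ -dot (M j) x) →
      (-∑ i ∈ univ.erase j, M i ≠ v → -1 ≤ -∑ i ∈ univ.erase j, dot (M i) x) →
      (∀ i, M i ≠ v → -1 ≤ dot (M i) x) → ∀ w ∈ prodL M j, w ≠ v → -1 ≤ dot w x := by
    intro x v h1 h2 h3 w hw hwv
    unfold prodL at hw
    simp only [mem_insert, mem_image, mem_univ, true_and] at hw
    rcases hw with rfl | rfl | ⟨i, rfl⟩
    · rw [dot_neg']; exact h1 hwv
    · rw [dot_neg', dot_sum']; exact h2 hwv
    · exact h3 i hwv
  rcases hv' with rfl | rfl | ⟨k, rfl⟩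
  · obtain ⟨x, h1, h2, h3, -⟩ := pt j 2
    refine key _ hv x (by rw [dot_neg', h1]; norm_num) (hall x _ (fun h' => absurd rfl h')
      (fun _ => by rw [h3 rfl]; norm_num) (fun i _ => ?_))
    by_cases hij : i = j
    · rw [hij, h1]; norm_num
    · rw [h2 i hij]; norm_num
  · obtain ⟨k, hk⟩ : ∃ k : Fin n, k ≠ j := by
      have : Nontrivial (Fin n) := Fin.nontrivial_iff_two_le.2 hn
      exact exists_ne j
    obtain ⟨x, h1, h2, -, h4⟩ := pt k 2
    refine key _ hv x (by rw [dot_neg', dot_sum', h4 hk]; norm_num) (hall x _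
      (fun _ => by rw [h2 j hk.symm]; norm_num) (fun h' => absurd rfl h') (fun i _ => ?_))
    by_cases hik : i = k
    · rw [hik, h1]; norm_num
    · rw [h2 i hik]; norm_num
  · obtain ⟨x, h1, h2, h3, h4⟩ := pt k (-2)
    refine key _ hv x (by rw [h1]; norm_num) (hall x _ (fun _ => ?_) (fun _ => ?_) (fun i hi => ?_))
    · by_cases hkj : k = j
      · rw [← hkj, h1]; norm_num
      · rw [h2 j (Ne.symm hkj)]; norm_num
    · by_cases hkj : k = j
      · rw [h3 hkj]; norm_num
      · rw [h4 hkj]; norm_num
    · by_cases hik : i = k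
      · exact absurd (by rw [hik]) hi
      · rw [h2 i hik]; norm_num

end Pool.Agent.L5helper31.TG
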